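import Mathlib

/-!
# Groups of units in algebras of characteristic `p`

Written by helper808 for MP_eac726_al.
-/

set_option autoImplicit false

namespace Pool.Agent.Helper808_Bin

section Alg

variable {A : Type} [Ring A] (p : ℕ) [Fact p.Prime] [CharP A p]

lemma pow_eq_one_of_nil {u : A} {N : ℕ} (h : (u - 1) ^ N = 0) : u ^ (p ^ N) = 1 := by
  have h1 : u = (u - 1) + 1 := by abel
  have hc : Commute (u - 1) (1 : A) := Commute.one_right _
  rw [h1, add_pow_char_pow_of_commute p N hc, one_pow,
    pow_eq_zero_of_le (Nat.lt_pow_self (Fact.out : p.Prime).one_lt).le h, zero_add]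

variable (K : Type) [Field K] [Finite K] [Algebra K A]

include K p in
/-- If the products of `N` of the elements `u j - 1` vanish, then the units `u j` generate a
finite group. -/
lemma closure_finite {k : ℕ} (u : Fin k → Aˣ) (N : ℕ)
    (h : ∀ l : List (Fin k), l.length = N → (l.map fun j => (u j : A) - 1).prod = 0) :
    Finite (Subgroup.closure (Set.range u)) := by
  classical
  set a : Fin k → A := fun j => (u j : A) - 1 with ha
  have h' : ∀ l : List (Fin k), N ≤ l.length → (l.map a).prod = 0 := by
    intro l hl
    have h1 : l = l.take N ++ l.drop N := (List.take_append_drop N l).symm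
    rw [h1, List.map_append, List.prod_append, h (l.take N) (by rw [List.length_take]; omega),
      zero_mul]
  let Fs : Set A := (fun l : List (Fin k) => (l.map a).prod) '' {l | l.length < N}
  have hFs : Fs.Finite := (List.finite_length_lt (Fin k) N).image _
  let B : Subalgebra K A := Algebra.adjoin K (Set.range a)
  have hB : Subalgebra.toSubmodule B ≤ Submodule.span K Fs := by
    rw [Algebra.adjoin_eq_span, Submodule.span_le]
    intro x hx
    have : ∃ l : List (Fin k), (l.map a).prod = x := by
      induction hx using Submonoid.closure_induction with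
      | mem x hx =>
        obtain ⟨j, rfl⟩ := hx
        exact ⟨[j], by simp⟩
      | one => exact ⟨[], by simp⟩
      | mul x y _ _ hx hy =>
        obtain ⟨l, rfl⟩ := hx
        obtain ⟨l', rfl⟩ := hy
        exact ⟨l ++ l', by simp⟩
    obtain ⟨l, rfl⟩ := this
    by_cases hl : l.length < N
    · exact Submodule.subset_span ⟨l, hl, rfl⟩
    · rw [h' l (not_lt.mp hl)]
      exact Submodule.zero_mem _
  have hfin : Finite (Submodule.span K Fs) := by
    have : Module.Finite K (Submodule.span K Fs) := Module.Finite.span_of_finite K hFs
    exact Module.finite_of_finite K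
  have hBfin : Finite B := by
    have : Function.Injective (fun b : B => (⟨b.1, hB b.2⟩ : Submodule.span K Fs)) := by
      intro b b' hbb
      exact Subtype.ext (congrArg (fun z : Submodule.span K Fs => (z : A)) hbb)
    exact Finite.of_injective _ this
  let D : Subgroup Aˣ :=
    { carrier := {w | (w : A) ∈ B ∧ ((w⁻¹ : Aˣ) : A) ∈ B}
      one_mem' := by simp [B.one_mem]
      mul_mem' := by
        rintro x y ⟨hx1, hx2⟩ ⟨hy1, hy2⟩
        refine ⟨by simpa using B.mul_mem hx1 hy1, ?_⟩
        simpa using B.mul_mem hy2 hx2
      inv_mem' := by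
        rintro x ⟨hx1, hx2⟩
        exact ⟨hx2, by simpa using hx1⟩ }
  have hDfin : Finite D := by
    have : Function.Injective (fun w : D => (⟨(w.1 : A), w.2.1⟩ : B)) := by
      intro w w' hw
      exact Subtype.ext (Units.ext (congrArg (fun z : B => (z : A)) hw))
    exact Finite.of_injective _ this
  have hle : Subgroup.closure (Set.range u) ≤ D := by
    rw [Subgroup.closure_le]
    rintro _ ⟨j, rfl⟩
    have h1 : (u j : A) ∈ B := by
      have h2 : a j ∈ B := Algebra.subset_adjoin ⟨j, rfl⟩
      have h3 : (u j : A) = a j + 1 := by simp [ha]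
      rw [h3]
      exact B.add_mem h2 B.one_mem
    refine ⟨h1, ?_⟩
    have h4 : ((u j : A) - 1) ^ N = 0 := by
      have := h (List.replicate N j) List.length_replicate
      rwa [List.map_replicate, List.prod_replicate] at this
    have h5 : (u j : A) ^ (p ^ N) = 1 := pow_eq_one_of_nil p h4
    have h6 : (u j) ^ (p ^ N) = 1 := Units.ext (by simpa using h5)
    have h7 : (u j)⁻¹ = (u j) ^ (p ^ N - 1) := by
      rw [inv_eq_iff_mul_eq_one, ← pow_succ', Nat.sub_add_cancel, h6]
      exact Nat.one_le_pow _ _ (Fact.out : p.Prime).pos
    rw [h7]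
    simpa using B.pow_mem h1 _
  exact Finite.of_injective _ (Subgroup.inclusion_injective hle)

end Alg

end Pool.Agent.Helper808_Bin
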