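import Pool.Agent.Helper808_Bin.Module

/-!
# The irreducible group

Written by helper808 for MP_eac726_al.
-/

set_option autoImplicit false

namespace Pool.Agent.Helper808_Bin

section Span

variable {α K A : Type} [Field K] [Ring A] [Algebra K A]

/-- The span of the values of `τ` on the nonempty words. -/
def P (K : Type) [Field K] [Algebra K A] (τ : List α → A) : Submodule K A :=
  Submodule.span K (Set.range fun w : {w : List α // w ≠ []} => τ w.1)

lemma mem_P (τ : List α → A) {w : List α} (hw : w ≠ []) : τ w ∈ P K τ :=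
  Submodule.subset_span ⟨⟨w, hw⟩, rfl⟩

lemma P_mul {τ : List α → A} (hτ : ∀ w w', τ (w ++ w') = τ w * τ w') :
    ∀ a ∈ P K τ, ∀ b ∈ P K τ, a * b ∈ P K τ := by
  intro a ha b hb
  induction ha using Submodule.span_induction with
  | mem a ha =>
    obtain ⟨⟨w, hw⟩, rfl⟩ := ha
    induction hb using Submodule.span_induction with
    | mem b hb =>
      obtain ⟨⟨w', hw'⟩, rfl⟩ := hb
      change τ w * τ w' ∈ _
      rw [← hτ]
      exact mem_P τ (by simp [hw])
    | zero => rw [mul_zero]; exact Submodule.zero_mem _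
    | add b b' _ _ hb hb' => rw [mul_add]; exact Submodule.add_mem _ hb hb'
    | smul c b _ hb => rw [mul_smul_comm]; exact Submodule.smul_mem _ c hb
  | zero => rw [zero_mul]; exact Submodule.zero_mem _
  | add a a' _ _ ha ha' => rw [add_mul]; exact Submodule.add_mem _ ha ha'
  | smul c a _ ha => rw [smul_mul_assoc]; exact Submodule.smul_mem _ c ha

lemma P_exists {τ : List α → A} {a : A} (ha : a ∈ P K τ) :
    ∃ X : List α →₀ K, X [] = 0 ∧ Finsupp.linearCombination K τ X = a := by
  classical
  induction ha using Submodule.span_induction with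
  | mem a ha =>
    obtain ⟨⟨w, hw⟩, rfl⟩ := ha
    refine ⟨Finsupp.single w 1, ?_, by simp⟩
    rw [Finsupp.single_apply, if_neg hw]
  | zero => exact ⟨0, rfl, map_zero _⟩
  | add a a' _ _ ha ha' =>
    obtain ⟨X, hX, rfl⟩ := ha
    obtain ⟨X', hX', rfl⟩ := ha'
    exact ⟨X + X', by rw [Finsupp.add_apply, hX, hX', add_zero], map_add _ _ _⟩
  | smul c a _ ha =>
    obtain ⟨X, hX, rfl⟩ := ha
    exact ⟨c • X, by rw [Finsupp.smul_apply, hX, smul_zero], map_smul _ _ _⟩

lemma P_comm {τ τ' : List α → A} (h : ∀ w w', τ w * τ' w' = τ' w' * τ w) :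
    ∀ a ∈ P K τ, ∀ b ∈ P K τ', a * b = b * a := by
  intro a ha b hb
  induction ha using Submodule.span_induction with
  | mem a ha =>
    obtain ⟨⟨w, hw⟩, rfl⟩ := ha
    induction hb using Submodule.span_induction with
    | mem b hb =>
      obtain ⟨⟨w', hw'⟩, rfl⟩ := hb
      exact h w w'
    | zero => rw [mul_zero, zero_mul]
    | add b b' _ _ hb hb' => rw [mul_add, add_mul, hb, hb']
    | smul c b _ hb => rw [mul_smul_comm, smul_mul_assoc, hb]
  | zero => rw [mul_zero, zero_mul]
  | add a a' _ _ ha ha' => rw [mul_add, add_mul, ha, ha']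
  | smul c a _ ha => rw [mul_smul_comm, smul_mul_assoc, ha]

lemma P_nil {k : ℕ} {τ : List α → A}
    (h : ∀ X : Fin k → (List α →₀ K), (∀ j, X j [] = 0) →
      ∃ N : ℕ, ∀ l : List (Fin k), l.length = N →
        (l.map fun j => Finsupp.linearCombination K τ (X j)).prod = 0)
    (a : Fin k → A) (ha : ∀ j, a j ∈ P K τ) :
    ∃ N : ℕ, ∀ l : List (Fin k), l.length = N → (l.map a).prod = 0 := by
  choose X hX hXa using fun j => P_exists (ha j)
  obtain ⟨N, hN⟩ := h X hX
  refine ⟨N, fun l hl => ?_⟩
  have h1 : a = fun j => Finsupp.linearCombination K τ (X j) := funext fun j => (hXa j).symm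
  rw [h1]
  exact hN l hl

end Span

/-- The data of the construction. -/
structure Data (p k : ℕ) [Fact p.Prime] where
  /-- the module -/
  V : Type
  /-- its addition -/
  grp : AddCommGroup V
  /-- its scalars -/
  mod : Module (ZMod p) V
  /-- the letters -/
  α : Type
  /-- finitely many of them -/
  fin : Fintype α
  /-- the first operators -/
  τ : List α → Module.End (ZMod p) V
  /-- the second operators -/
  τ' : List α → Module.End (ZMod p) V
  /-- the vector -/
  v₀ : V
  hv₀ : v₀ ≠ 0
  one : τ [] = 1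
  one' : τ' [] = 1
  mul : ∀ w w', τ (w ++ w') = τ w * τ w'
  mul' : ∀ w w', τ' (w ++ w') = τ' w * τ' w'
  comm : ∀ w w', τ w * τ' w' = τ' w' * τ w
  nil : ∀ a : Fin k → Module.End (ZMod p) V, (∀ j, a j ∈ P (ZMod p) τ) →
    ∃ N : ℕ, ∀ l : List (Fin k), l.length = N → (l.map a).prod = 0
  nil' : ∀ a : Fin k → Module.End (ZMod p) V, (∀ j, a j ∈ P (ZMod p) τ') →
    ∃ N : ℕ, ∀ l : List (Fin k), l.length = N → (l.map a).prod = 0
  fix : (∑ i, τ [i] * τ' [i]) v₀ = v₀
  irr : ∀ W : Submodule (ZMod p) V, (∀ w w', ∀ v ∈ W, (τ w * τ' w') v ∈ W) → W = ⊥ ∨ W = ⊤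

lemma nonempty_data (p k : ℕ) [Fact p.Prime] : Nonempty (Data p k) := by
  classical
  obtain ⟨Λ, hΛ1, hΛ2, hΛ3⟩ := exists_Lambda (ZMod p) k
  let α := Fin ((k + 2) ^ 4)
  let Λ' : Fn α (ZMod p) := Λ
  have hΛ : Λ' ≠ 0 := by
    intro h
    have h1 : Λ' [] [] = 0 := by rw [h]; rfl
    have h2 : Λ' [] [] = 1 := hΛ1
    rw [h2] at h1
    exact one_ne_zero h1
  obtain ⟨V, i1, i2, π, v₀, hv₀, h1, h2, h3⟩ := exists_simple Λ' hΛ
  refine ⟨⟨V, i1, i2, α, inferInstance, fun w => π (T' w []), fun w => π (T' [] w), v₀, hv₀,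
    ?_, ?_, ?_, ?_, ?_, ?_, ?_, ?_, ?_⟩⟩
  · change π (T' [] []) = 1
    rw [T'_one, map_one]
  · change π (T' [] []) = 1
    rw [T'_one, map_one]
  · intro w w'
    change π (T' (w ++ w') []) = π (T' w []) * π (T' w' [])
    rw [← map_mul, T'_mul, List.append_nil]
  · intro w w'
    change π (T' [] (w ++ w')) = π (T' [] w) * π (T' [] w')
    rw [← map_mul, T'_mul, List.append_nil]
  · intro w w'
    change π (T' w []) * π (T' [] w') = π (T' [] w') * π (T' w [])
    rw [← map_mul, ← map_mul, T'_mul, T'_mul]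
    simp
  · refine P_nil fun X hX => ?_
    obtain ⟨N, hN⟩ := hΛ3 X hX
    refine ⟨N, fun l hl => ?_⟩
    have e1 : (fun j => Finsupp.linearCombination (ZMod p) (fun w => π (T' w [])) (X j))
        = fun j => π (yL (X j)) := by
      funext j
      unfold yL
      rw [Finsupp.linearCombination_apply, Finsupp.linearCombination_apply]
      unfold Finsupp.sum
      rw [map_sum]
      refine Finset.sum_congr rfl fun w _ => ?_
      rw [map_smul]
    have e2 : (l.map fun j => π (yL (X j))).prod = π ((l.map fun j => yL (X j)).prod) := by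
      rw [map_list_prod, List.map_map]
      rfl
    rw [e1, e2]
    refine zero_of_translates h1 h2 _ fun w w' => ?_
    funext x y
    rw [prod_yL]
    change E X (fun x => (fun x => Λ x (y ++ w')) (x ++ w)) l x [] = 0
    rw [E_shift X (fun x => Λ x (y ++ w'))]
    exact (hN l hl _ _ _).1
  · refine P_nil fun X hX => ?_
    obtain ⟨N, hN⟩ := hΛ3 X hX
    refine ⟨N, fun l hl => ?_⟩
    have e1 : (fun j => Finsupp.linearCombination (ZMod p) (fun w => π (T' [] w)) (X j))
        = fun j => π (zL (X j)) := by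
      funext j
      unfold zL
      rw [Finsupp.linearCombination_apply, Finsupp.linearCombination_apply]
      unfold Finsupp.sum
      rw [map_sum]
      refine Finset.sum_congr rfl fun w _ => ?_
      rw [map_smul]
    have e2 : (l.map fun j => π (zL (X j))).prod = π ((l.map fun j => zL (X j)).prod) := by
      rw [map_list_prod, List.map_map]
      rfl
    rw [e1, e2]
    refine zero_of_translates h1 h2 _ fun w w' => ?_
    funext x y
    rw [prod_zL]
    change E X (fun y => (fun y => Λ (x ++ w) y) (y ++ w')) l y [] = 0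
    rw [E_shift X (fun y => Λ (x ++ w) y)]
    exact (hN l hl _ _ _).2
  · have e1 : (∑ i, π (T' [i] []) * π (T' [] [i]) : Module.End (ZMod p) V)
        = π (∑ i, T' [i] [i]) := by
      rw [map_sum]
      refine Finset.sum_congr rfl fun i _ => ?_
      rw [← map_mul, T'_mul]
      rfl
    have e2 : π (∑ i, T' [i] [i] - 1) v₀ = 0 := by
      apply h1
      have e3 : ((∑ i : α, (T' [i] [i] : Tr α (ZMod p)) - 1 : Tr α (ZMod p))).1
          = ∑ i : α, (T [i] [i] : Module.End (ZMod p) (Fn α (ZMod p))) - 1 := by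
        rw [AddSubgroupClass.coe_sub, AddSubmonoidClass.coe_finsetSum]
        rfl
      rw [e3]
      funext x y
      change ev x y ((∑ i : α, (T [i] [i] : Module.End (ZMod p) (Fn α (ZMod p))) - 1) Λ') = 0
      rw [LinearMap.sub_apply, LinearMap.sum_apply, map_sub, map_sum, sub_eq_zero]
      exact (hΛ2 x y).symm
    change (∑ i, π (T' [i] []) * π (T' [] [i]) : Module.End (ZMod p) V) v₀ = v₀
    rw [e1]
    rw [map_sub, map_one, LinearMap.sub_apply, sub_eq_zero] at e2
    exact e2
  · intro W hW
    refine h3 W ?_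
    have key : ∀ e (he : e ∈ Tr α (ZMod p)), ∀ w ∈ W, π ⟨e, he⟩ w ∈ W := by
      intro e he
      induction he using Algebra.adjoin_induction with
      | mem e he =>
        obtain ⟨⟨w, w'⟩, rfl⟩ := he
        intro v hv
        have := hW w w' v hv
        change (π (T' w []) * π (T' [] w')) v ∈ W at this
        rw [← map_mul, T'_mul, List.append_nil, List.nil_append] at this
        exact this
      | algebraMap r =>
        intro v hv
        have : (⟨algebraMap (ZMod p) _ r, Subalgebra.algebraMap_mem _ r⟩ : Tr α (ZMod p))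
            = algebraMap (ZMod p) (Tr α (ZMod p)) r := rfl
        rw [this, AlgHom.commutes, Module.algebraMap_end_apply]
        exact W.smul_mem r hv
      | add e e' he he' ih ih' =>
        intro v hv
        have : (⟨e + e', Subalgebra.add_mem _ he he'⟩ : Tr α (ZMod p))
            = (⟨e, he⟩ : Tr α (ZMod p)) + ⟨e', he'⟩ := rfl
        rw [this, map_add, LinearMap.add_apply]
        exact W.add_mem (ih v hv) (ih' v hv)
      | mul e e' he he' ih ih' =>
        intro v hv
        have : (⟨e * e', Subalgebra.mul_mem _ he he'⟩ : Tr α (ZMod p))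
            = (⟨e, he⟩ : Tr α (ZMod p)) * ⟨e', he'⟩ := rfl
        rw [this, map_mul, Module.End.mul_apply]
        exact ih _ (ih' v hv)
    exact fun s => key s.1 s.2

end Pool.Agent.Helper808_Bin
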