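import Pool.Agent.Helper808_Bin.Alg

/-!
# Affine groups over an irreducible linear group

Written by helper808 for MP_eac726_al.
-/

set_option autoImplicit false

namespace Pool.Agent.Helper808_Bin

section Aff

variable {K V : Type} [Field K] [AddCommGroup V] [Module K V]

/-- The action of a linear group on the additive group, written multiplicatively. -/
def act (Γ : Subgroup (Module.End K V)ˣ) : Γ →* MulAut (Multiplicative V) where
  toFun γ :=
    { toFun := fun v => Multiplicative.ofAdd ((γ.1 : Module.End K V) v.toAdd)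
      invFun := fun v => Multiplicative.ofAdd (((γ.1⁻¹ : (Module.End K V)ˣ) : Module.End K V) v.toAdd)
      left_inv := fun v => by
        have h : ((γ.1⁻¹ : (Module.End K V)ˣ) : Module.End K V) * (γ.1 : Module.End K V) = 1 := by
          simp
        have h1 := congrArg (fun f : Module.End K V => f v.toAdd) h
        exact congrArg Multiplicative.ofAdd h1
      right_inv := fun v => by
        have h : (γ.1 : Module.End K V) * ((γ.1⁻¹ : (Module.End K V)ˣ) : Module.End K V) = 1 := by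
          simp
        have h1 := congrArg (fun f : Module.End K V => f v.toAdd) h
        exact congrArg Multiplicative.ofAdd h1
      map_mul' := fun v w => by
        change Multiplicative.ofAdd _ = Multiplicative.ofAdd _
        congr 1
        exact map_add _ _ _ }
  map_one' := by
    ext v
    rfl
  map_mul' γ δ := by
    ext v
    rfl

/-- The affine group `V ⋊ Γ`. -/
abbrev Aff (Γ : Subgroup (Module.End K V)ˣ) : Type := Multiplicative V ⋊[act Γ] Γ

variable (Γ : Subgroup (Module.End K V)ˣ)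

/-- Translations. -/
def tr (v : V) : Aff Γ := SemidirectProduct.inl (Multiplicative.ofAdd v)

lemma tr_add (v w : V) : tr Γ (v + w) = tr Γ v * tr Γ w := by
  unfold tr
  rw [ofAdd_add, map_mul]

lemma tr_zero : tr Γ (0 : V) = 1 := by
  unfold tr
  rw [ofAdd_zero, map_one]

lemma tr_neg (v : V) : tr Γ (-v) = (tr Γ v)⁻¹ := by
  unfold tr
  rw [ofAdd_neg, map_inv]

lemma tr_injective : Function.Injective (tr Γ) := fun v w h =>
  Multiplicative.ofAdd.injective (SemidirectProduct.inl_injective h)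

lemma inr_tr (γ : Γ) (v : V) :
    (SemidirectProduct.inr γ : Aff Γ) * tr Γ v * (SemidirectProduct.inr γ)⁻¹
      = tr Γ ((γ.1 : Module.End K V) v) := by
  unfold tr
  rw [← map_inv, ← SemidirectProduct.inl_aut]
  rfl

lemma left_right (g : Aff Γ) : g = tr Γ g.left.toAdd * SemidirectProduct.inr g.right := by
  unfold tr
  rw [ofAdd_toAdd, SemidirectProduct.inl_left_mul_inr_right]

/-- The additive subgroup of the vectors whose translations lie in a subgroup. -/
def vecs (M : Subgroup (Aff Γ)) : AddSubgroup V where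
  carrier := {v | tr Γ v ∈ M}
  zero_mem' := by
    change tr Γ 0 ∈ M
    rw [tr_zero]
    exact M.one_mem
  add_mem' := by
    intro v w hv hw
    change tr Γ (v + w) ∈ M
    rw [tr_add]
    exact M.mul_mem hv hw
  neg_mem' := by
    intro v hv
    change tr Γ (-v) ∈ M
    rw [tr_neg]
    exact M.inv_mem hv

lemma mem_vecs {M : Subgroup (Aff Γ)} {v : V} : v ∈ vecs Γ M ↔ tr Γ v ∈ M := Iff.rfl

/-- The translation subgroup. -/
def N : Subgroup (Aff Γ) := (SemidirectProduct.inl : Multiplicative V →* Aff Γ).range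

lemma tr_mem_N (v : V) : tr Γ v ∈ N Γ := ⟨_, rfl⟩

lemma mem_N {g : Aff Γ} : g ∈ N Γ ↔ g.right = 1 := by
  constructor
  · rintro ⟨v, rfl⟩
    simp
  · intro h
    rw [left_right Γ g, h, map_one, mul_one]
    exact tr_mem_N Γ _

instance : (N Γ).Normal := by
  have : N Γ = (SemidirectProduct.rightHom : Aff Γ →* Γ).ker := SemidirectProduct.range_inl_eq_ker_rightHom
  rw [this]
  infer_instance

lemma le_of_vecs_top {M : Subgroup (Aff Γ)} (h : vecs Γ M = ⊤) : N Γ ≤ M := by
  rintro _ ⟨v, rfl⟩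
  have : v.toAdd ∈ vecs Γ M := by rw [h]; trivial
  exact this

/-- The irreducibility of the action. -/
def Irr : Prop := ∀ W : AddSubgroup V, (∀ γ ∈ Γ, ∀ w ∈ W, (γ : Module.End K V) w ∈ W) →
  W = ⊥ ∨ W = ⊤

variable {Γ}

lemma centralizer_N : Subgroup.centralizer ((N Γ : Subgroup (Aff Γ)) : Set (Aff Γ)) = N Γ := by
  apply le_antisymm
  · intro g hg
    rw [Subgroup.mem_centralizer_iff] at hg
    rw [mem_N]
    apply Subtype.ext
    apply Units.ext
    ext v
    have h1 := hg (tr Γ v) (tr_mem_N Γ v)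
    have h2 : tr Γ v = g * tr Γ v * g⁻¹ := by rw [← h1]; group
    have h3 : g * tr Γ v * g⁻¹ = tr Γ ((g.right.1 : Module.End K V) v) := by
      conv_lhs => rw [left_right Γ g]
      rw [mul_inv_rev]
      have : tr Γ g.left.toAdd * SemidirectProduct.inr g.right * tr Γ v *
          ((SemidirectProduct.inr g.right)⁻¹ * (tr Γ g.left.toAdd)⁻¹)
          = tr Γ g.left.toAdd * (SemidirectProduct.inr g.right * tr Γ v *
          (SemidirectProduct.inr g.right)⁻¹) * (tr Γ g.left.toAdd)⁻¹ := by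
        group
      rw [this, inr_tr, ← tr_neg, ← tr_add, ← tr_add]
      congr 1
      abel
    rw [h3] at h2
    exact (tr_injective Γ h2).symm
  · intro g hg
    rw [Subgroup.mem_centralizer_iff]
    rintro h ⟨w, rfl⟩
    obtain ⟨v, rfl⟩ := hg
    rw [← map_mul, ← map_mul, mul_comm]

lemma N_le_of_normal (hirr : Irr Γ) {M : Subgroup (Aff Γ)} (hM : M.Normal) (hne : M ≠ ⊥) :
    N Γ ≤ M := by
  have hinv : ∀ γ ∈ Γ, ∀ w ∈ vecs Γ M, (γ : Module.End K V) w ∈ vecs Γ M := by
    intro γ hγ w hw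
    rw [mem_vecs] at hw ⊢
    have := hM.conj_mem _ hw (SemidirectProduct.inr ⟨γ, hγ⟩)
    rwa [inr_tr] at this
  rcases hirr _ hinv with h | h
  · exfalso
    apply hne
    have hcomm : M ≤ Subgroup.centralizer ((N Γ : Subgroup (Aff Γ)) : Set (Aff Γ)) := by
      intro g hg
      rw [Subgroup.mem_centralizer_iff]
      intro n hn
      have h1 : n * g * n⁻¹ * g⁻¹ ∈ M := M.mul_mem (hM.conj_mem g hg n) (M.inv_mem hg)
      have h2 : n * g * n⁻¹ * g⁻¹ ∈ N Γ := by
        have h3 : g * n⁻¹ * g⁻¹ ∈ N Γ := (inferInstance : (N Γ).Normal).conj_mem _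
          ((N Γ).inv_mem hn) g
        have : n * g * n⁻¹ * g⁻¹ = n * (g * n⁻¹ * g⁻¹) := by group
        rw [this]
        exact (N Γ).mul_mem hn h3
      obtain ⟨v, hv⟩ := h2
      have h4 : v.toAdd ∈ vecs Γ M := by
        rw [mem_vecs]
        change SemidirectProduct.inl v ∈ M
        rw [hv]
        exact h1
      rw [h, AddSubgroup.mem_bot] at h4
      have h5 : v = 1 := h4
      rw [h5, map_one] at hv
      have h6 : n * g * n⁻¹ = g := by
        rw [eq_comm, mul_inv_eq_one] at hv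
        exact hv
      calc n * g = n * g * n⁻¹ * n := by group
        _ = g * n := by rw [h6]
    rw [centralizer_N] at hcomm
    rw [eq_bot_iff]
    intro g hg
    obtain ⟨v, rfl⟩ := hcomm hg
    have h4 : v.toAdd ∈ vecs Γ M := hg
    rw [h, AddSubgroup.mem_bot] at h4
    have h5 : v = 1 := h4
    rw [h5, map_one]
    exact Subgroup.one_mem _
  · exact le_of_vecs_top Γ h

/-- The complement. -/
def H (Γ : Subgroup (Module.End K V)ˣ) : Subgroup (Aff Γ) :=
  (SemidirectProduct.inr : Γ →* Aff Γ).range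

lemma H_inf_N : H Γ ⊓ N Γ = ⊥ := by
  rw [eq_bot_iff]
  rintro g ⟨⟨γ, rfl⟩, h2⟩
  have h3 := (mem_N Γ).mp h2
  rw [SemidirectProduct.right_inr] at h3
  rw [h3, map_one]
  exact Subgroup.one_mem _

lemma H_sup_N : H Γ ⊔ N Γ = ⊤ := by
  rw [eq_top_iff]
  intro g _
  rw [left_right Γ g]
  exact Subgroup.mul_mem _ (Subgroup.mem_sup_right (tr_mem_N Γ _))
    (Subgroup.mem_sup_left ⟨_, rfl⟩)

lemma H_coatom (hirr : Irr Γ) (hV : ∃ v : V, v ≠ 0) : IsCoatom (H Γ) := by
  constructor
  · intro h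
    obtain ⟨v, hv⟩ := hV
    have h1 : tr Γ v ∈ H Γ ⊓ N Γ := ⟨by rw [h]; trivial, tr_mem_N Γ v⟩
    rw [H_inf_N, Subgroup.mem_bot, ← tr_zero Γ] at h1
    exact hv (tr_injective Γ h1)
  · intro M hM
    obtain ⟨g, hg1, hg2⟩ := Set.exists_of_ssubset hM
    have hle : H Γ ≤ M := hM.le
    have h1 : tr Γ g.left.toAdd ∈ M := by
      have h2 : tr Γ g.left.toAdd = g * (SemidirectProduct.inr g.right)⁻¹ := by
        rw [eq_mul_inv_iff_mul_eq]
        exact (left_right Γ g).symm
      rw [h2]
      exact M.mul_mem hg1 (M.inv_mem (hle ⟨_, rfl⟩))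
    have hinv : ∀ γ ∈ Γ, ∀ w ∈ vecs Γ M, (γ : Module.End K V) w ∈ vecs Γ M := by
      intro γ hγ w hw
      rw [mem_vecs] at hw ⊢
      rw [← inr_tr Γ ⟨γ, hγ⟩]
      exact M.mul_mem (M.mul_mem (hle ⟨_, rfl⟩) hw) (M.inv_mem (hle ⟨_, rfl⟩))
    rcases hirr _ hinv with h | h
    · exfalso
      have h2 : g.left.toAdd ∈ vecs Γ M := h1
      rw [h, AddSubgroup.mem_bot] at h2
      apply hg2
      change g ∈ H Γ
      rw [left_right Γ g, h2, tr_zero, one_mul]
      exact ⟨_, rfl⟩
    · rw [eq_top_iff, ← H_sup_N (Γ := Γ)]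
      exact sup_le hle (le_of_vecs_top Γ h)

lemma fg_Aff (hirr : Irr Γ) (hV : ∃ v : V, v ≠ 0) (hfg : Γ.FG) : Group.FG (Aff Γ) := by
  classical
  obtain ⟨v, hv⟩ := hV
  have hfg' : Group.FG Γ := (Group.fg_iff_subgroup_fg Γ).mpr hfg
  obtain ⟨S, hS⟩ := hfg'
  refine ⟨⟨insert (tr Γ v) (S.image (SemidirectProduct.inr : Γ →* Aff Γ)), ?_⟩⟩
  set M := Subgroup.closure ((insert (tr Γ v) (S.image (SemidirectProduct.inr : Γ →* Aff Γ)) :
    Finset (Aff Γ)) : Set (Aff Γ)) with hM
  have h1 : tr Γ v ∈ M := Subgroup.subset_closure (by simp)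
  have hle : H Γ ≤ M := by
    rintro _ ⟨γ, rfl⟩
    have h2 : γ ∈ Subgroup.closure (S : Set Γ) := by rw [hS]; trivial
    have h3 : Subgroup.closure (S : Set Γ) ≤ M.comap (SemidirectProduct.inr : Γ →* Aff Γ) := by
      rw [Subgroup.closure_le]
      intro s hs
      exact Subgroup.subset_closure (by
        rw [Finset.coe_insert, Finset.coe_image]
        exact Set.mem_insert_of_mem _ ⟨s, hs, rfl⟩)
    exact h3 h2
  have hinv : ∀ γ ∈ Γ, ∀ w ∈ vecs Γ M, (γ : Module.End K V) w ∈ vecs Γ M := by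
    intro γ hγ w hw
    rw [mem_vecs] at hw ⊢
    rw [← inr_tr Γ ⟨γ, hγ⟩]
    exact M.mul_mem (M.mul_mem (hle ⟨_, rfl⟩) hw) (M.inv_mem (hle ⟨_, rfl⟩))
  rcases hirr _ hinv with h | h
  · exfalso
    have h2 : v ∈ vecs Γ M := h1
    rw [h, AddSubgroup.mem_bot] at h2
    exact hv h2
  · rw [eq_top_iff, ← H_sup_N (Γ := Γ)]
    exact sup_le hle (le_of_vecs_top Γ h)

/-- A set of elements whose linear parts generate a finite group generates a finite group. -/
lemma closure_Aff_finite [Finite K] {κ : Type} [Finite κ] (g : κ → Aff Γ)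
    (h : Finite (Subgroup.closure (Set.range fun j => (g j).right))) :
    Finite (Subgroup.closure (Set.range g)) := by
  classical
  set Δ : Subgroup Γ := Subgroup.closure (Set.range fun j => (g j).right) with hΔ
  let s : Set V := Set.range fun x : Δ × κ => (x.1.1.1 : Module.End K V) (g x.2).left.toAdd
  have hs : s.Finite := Set.finite_range _
  let W : Submodule K V := Submodule.span K s
  have hW : Finite W := by
    have : Module.Finite K W := Module.Finite.span_of_finite K hs
    exact Module.finite_of_finite K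
  have hWinv : ∀ γ ∈ Δ, ∀ w ∈ W, (γ.1 : Module.End K V) w ∈ W := by
    intro γ hγ w hw
    have : W ≤ W.comap (γ.1 : Module.End K V) := by
      refine Submodule.span_le.mpr ?_
      rintro _ ⟨⟨δ, j⟩, rfl⟩
      refine Submodule.subset_span ⟨⟨⟨γ, hγ⟩ * δ, j⟩, ?_⟩
      rfl
    exact this hw
  let D : Subgroup (Aff Γ) :=
    { carrier := {x | x.right ∈ Δ ∧ x.left.toAdd ∈ W}
      one_mem' := ⟨Δ.one_mem, W.zero_mem⟩
      mul_mem' := by
        rintro x y ⟨hx1, hx2⟩ ⟨hy1, hy2⟩
        refine ⟨Δ.mul_mem hx1 hy1, ?_⟩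
        rw [SemidirectProduct.mul_left]
        exact W.add_mem hx2 (hWinv _ hx1 _ hy2)
      inv_mem' := by
        rintro x ⟨hx1, hx2⟩
        refine ⟨Δ.inv_mem hx1, ?_⟩
        rw [SemidirectProduct.inv_left]
        exact hWinv _ (Δ.inv_mem hx1) _ (W.neg_mem hx2) }
  have hD : Finite D := by
    have : Function.Injective (fun x : D => ((⟨x.1.left.toAdd, x.2.2⟩, ⟨x.1.right, x.2.1⟩) : W × Δ)) := by
      intro x y hxy
      have h1 := congrArg (fun z : W × Δ => (z.1 : V)) hxy
      have h2 := congrArg (fun z : W × Δ => (z.2 : Γ)) hxy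
      exact Subtype.ext (SemidirectProduct.ext h1 h2)
    exact Finite.of_injective _ this
  have hle : Subgroup.closure (Set.range g) ≤ D := by
    rw [Subgroup.closure_le]
    rintro _ ⟨j, rfl⟩
    refine ⟨Subgroup.subset_closure ⟨j, rfl⟩, ?_⟩
    refine Submodule.subset_span ⟨⟨1, j⟩, ?_⟩
    rfl
  exact Finite.of_injective _ (Subgroup.inclusion_injective hle)

end Aff

end Pool.Agent.Helper808_Bin
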