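import Pool.Agent.Helper808_Bin.Final

/-!
# The group

Written by helper808 for MP_eac726_al.
-/

set_option autoImplicit false

namespace Pool.Agent.Helper808_Bin

section Grp

variable {p k : ℕ} [Fact p.Prime] (D : Data p (k + 1))

instance : AddCommGroup D.V := D.grp

instance : Module (ZMod p) D.V := D.mod

instance : Fintype D.α := D.fin

instance : Nontrivial D.V := ⟨⟨D.v₀, 0, D.hv₀⟩⟩

instance : CharP (Module.End (ZMod p) D.V) p :=
  charP_of_injective_algebraMap (algebraMap (ZMod p) (Module.End (ZMod p) D.V)).injective p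

lemma nil_one {P : Submodule (ZMod p) (Module.End (ZMod p) D.V)}
    (h : ∀ a : Fin (k + 1) → Module.End (ZMod p) D.V, (∀ j, a j ∈ P) →
      ∃ N : ℕ, ∀ l : List (Fin (k + 1)), l.length = N → (l.map a).prod = 0) :
    ∀ a ∈ P, ∃ N : ℕ, a ^ N = 0 := by
  intro a ha
  obtain ⟨N, hN⟩ := h (fun _ => a) (fun _ => ha)
  refine ⟨N, ?_⟩
  have := hN (List.replicate N 0) List.length_replicate
  rwa [List.map_replicate, List.prod_replicate] at this

/-- The first group. -/
def GY : Subgroup (Module.End (ZMod p) D.V)ˣ :=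
  unitSub p (P (ZMod p) D.τ) (P_mul D.mul) (nil_one D D.nil)

/-- The second group. -/
def GZ : Subgroup (Module.End (ZMod p) D.V)ˣ :=
  unitSub p (P (ZMod p) D.τ') (P_mul D.mul') (nil_one D D.nil')

lemma G_comm : ∀ a ∈ GY D, ∀ b ∈ GZ D, a * b = b * a := by
  intro a ha b hb
  have h := P_comm (K := ZMod p) D.comm _ ha _ hb
  apply Units.ext
  rw [Units.val_mul, Units.val_mul]
  have h1 : (a : Module.End (ZMod p) D.V) * b
      = ((a : Module.End (ZMod p) D.V) - 1) * ((b : Module.End (ZMod p) D.V) - 1) + a + b - 1 := by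
    noncomm_ring
  have h2 : (b : Module.End (ZMod p) D.V) * a
      = ((b : Module.End (ZMod p) D.V) - 1) * ((a : Module.End (ZMod p) D.V) - 1) + a + b - 1 := by
    noncomm_ring
  rw [h1, h2, h]

/-- The product of the two groups. -/
def GG : Subgroup (Module.End (ZMod p) D.V)ˣ := prodSub (GY D) (GZ D) (G_comm D)

lemma GG_finite (g : Fin (k + 1) → (Module.End (ZMod p) D.V)ˣ) (hg : ∀ j, g j ∈ GG D) :
    Finite (Subgroup.closure (Set.range g)) := by
  refine closure_mul_finite (GY D) (GZ D) (G_comm D) g hg ?_ ?_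
  · intro a ha
    obtain ⟨N, hN⟩ := D.nil (fun j => (a j : Module.End (ZMod p) D.V) - 1) ha
    exact closure_finite p (ZMod p) a N hN
  · intro a ha
    obtain ⟨N, hN⟩ := D.nil' (fun j => (a j : Module.End (ZMod p) D.V) - 1) ha
    exact closure_finite p (ZMod p) a N hN

lemma GG_pow : ∀ g ∈ GG D, ∃ n : ℕ, g ^ (p ^ n) = 1 := by
  refine pow_prodSub p (GY D) (GZ D) (G_comm D) ?_ ?_
  · intro a ha
    obtain ⟨N, hN⟩ := nil_one D D.nil _ ha
    have h5 := pow_eq_one_of_nil p hN
    exact ⟨N, Units.ext (by simpa using h5)⟩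
  · intro a ha
    obtain ⟨N, hN⟩ := nil_one D D.nil' _ ha
    have h5 := pow_eq_one_of_nil p hN
    exact ⟨N, Units.ext (by simpa using h5)⟩

/-- The generators of the first kind. -/
noncomputable def gY (i : D.α) : (Module.End (ZMod p) D.V)ˣ :=
  (IsNilpotent.isUnit_one_add (nil_one D D.nil _ (mem_P D.τ (List.cons_ne_nil i [])))).unit

/-- The generators of the second kind. -/
noncomputable def gZ (i : D.α) : (Module.End (ZMod p) D.V)ˣ :=
  (IsNilpotent.isUnit_one_add (nil_one D D.nil' _ (mem_P D.τ' (List.cons_ne_nil i [])))).unit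

lemma gY_val (i : D.α) : (gY D i : Module.End (ZMod p) D.V) = 1 + D.τ [i] := rfl

lemma gZ_val (i : D.α) : (gZ D i : Module.End (ZMod p) D.V) = 1 + D.τ' [i] := rfl

/-- The irreducible group. -/
noncomputable def Γ : Subgroup (Module.End (ZMod p) D.V)ˣ :=
  Subgroup.closure (Set.range (gY D) ∪ Set.range (gZ D))

lemma gY_mem (i : D.α) : gY D i ∈ Γ D := Subgroup.subset_closure (Or.inl ⟨i, rfl⟩)

lemma gZ_mem (i : D.α) : gZ D i ∈ Γ D := Subgroup.subset_closure (Or.inr ⟨i, rfl⟩)

lemma Γ_le : Γ D ≤ GG D := by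
  unfold Γ
  rw [Subgroup.closure_le]
  rintro _ (⟨i, rfl⟩ | ⟨i, rfl⟩)
  · refine ⟨gY D i, ?_, 1, (GZ D).one_mem, (mul_one _).symm⟩
    change (gY D i : Module.End (ZMod p) D.V) - 1 ∈ P (ZMod p) D.τ
    rw [gY_val, add_sub_cancel_left]
    exact mem_P D.τ (List.cons_ne_nil i [])
  · refine ⟨1, (GY D).one_mem, gZ D i, ?_, (one_mul _).symm⟩
    change (gZ D i : Module.End (ZMod p) D.V) - 1 ∈ P (ZMod p) D.τ'
    rw [gZ_val, add_sub_cancel_left]
    exact mem_P D.τ' (List.cons_ne_nil i [])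

lemma Γ_fg : (Γ D).FG := by
  classical
  have hf : (Set.range (gY D) ∪ Set.range (gZ D)).Finite :=
    (Set.finite_range _).union (Set.finite_range _)
  exact ⟨hf.toFinset, by rw [hf.coe_toFinset]; rfl⟩

/-- A subgroup of the module stable under the group is stable under the operators. -/
lemma stable {W : AddSubgroup D.V}
    (hW : ∀ γ ∈ Γ D, ∀ w ∈ W, (γ : Module.End (ZMod p) D.V) w ∈ W) :
    ∀ w w', ∀ v ∈ W, (D.τ w * D.τ' w') v ∈ W := by
  have hY : ∀ i, ∀ v ∈ W, D.τ [i] v ∈ W := by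
    intro i v hv
    have h1 := hW _ (gY_mem D i) v hv
    rw [gY_val, LinearMap.add_apply, Module.End.one_apply] at h1
    have h2 := W.sub_mem h1 hv
    rwa [add_sub_cancel_left] at h2
  have hZ : ∀ i, ∀ v ∈ W, D.τ' [i] v ∈ W := by
    intro i v hv
    have h1 := hW _ (gZ_mem D i) v hv
    rw [gZ_val, LinearMap.add_apply, Module.End.one_apply] at h1
    have h2 := W.sub_mem h1 hv
    rwa [add_sub_cancel_left] at h2
  have hY' : ∀ w, ∀ v ∈ W, D.τ w v ∈ W := by
    intro w
    induction w with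
    | nil => intro v hv; rwa [D.one]
    | cons i w ih =>
      intro v hv
      have h : D.τ (i :: w) = D.τ [i] * D.τ w := D.mul [i] w
      rw [h, Module.End.mul_apply]
      exact hY i _ (ih v hv)
  have hZ' : ∀ w, ∀ v ∈ W, D.τ' w v ∈ W := by
    intro w
    induction w with
    | nil => intro v hv; rwa [D.one']
    | cons i w ih =>
      intro v hv
      have h : D.τ' (i :: w) = D.τ' [i] * D.τ' w := D.mul' [i] w
      rw [h, Module.End.mul_apply]
      exact hZ i _ (ih v hv)
  intro w w' v hv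
  rw [Module.End.mul_apply]
  exact hY' w _ (hZ' w' v hv)

lemma Γ_irr : Irr (Γ D) := by
  intro W hW
  let W' : Submodule (ZMod p) D.V :=
    { carrier := W
      zero_mem' := W.zero_mem
      add_mem' := W.add_mem
      smul_mem' := fun c x hx => ZMod.smul_mem (K := W) hx c }
  rcases D.irr W' (stable D hW) with h | h
  · left
    rw [eq_bot_iff]
    intro w hw
    have : w ∈ W' := hw
    rw [h] at this
    exact this
  · right
    rw [eq_top_iff]
    intro w _
    have : w ∈ W' := by rw [h]; trivial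
    exact this

lemma isPGroup_Γ : IsPGroup p (Γ D) := by
  intro g
  obtain ⟨n, hn⟩ := GG_pow D g.1 (Γ_le D g.2)
  exact ⟨n, Subtype.ext (by simpa using hn)⟩

lemma infinite_V : Infinite D.V := by
  by_contra hinf
  rw [not_infinite_iff_finite] at hinf
  have hp : (p : ℕ) ∣ Nat.card D.V := by
    have h1 : addOrderOf D.v₀ = p := by
      apply addOrderOf_eq_prime _ D.hv₀
      rw [← Nat.cast_smul_eq_nsmul (ZMod p), CharP.cast_eq_zero, zero_smul]
    exact (dvd_of_eq h1.symm).trans (addOrderOf_dvd_natCard _)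
  let act' : MulAction (Γ D) D.V :=
    { smul := fun g v => (g.1 : Module.End (ZMod p) D.V) v
      one_smul := fun v => rfl
      mul_smul := fun g h v => rfl }
  have hsm : ∀ (g : Γ D) (v : D.V), g • v = (g.1 : Module.End (ZMod p) D.V) v := fun _ _ => rfl
  obtain ⟨b, hb, hb0⟩ := (isPGroup_Γ D).exists_fixed_point_of_prime_dvd_card_of_fixed_point D.V hp
    (a := 0) (by
      intro g
      rw [hsm, map_zero])
  let W : AddSubgroup D.V :=
    { carrier := {v | ∀ γ ∈ Γ D, (γ : Module.End (ZMod p) D.V) v = v}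
      zero_mem' := fun γ _ => map_zero _
      add_mem' := by
        intro v w hv hw γ hγ
        rw [map_add, hv γ hγ, hw γ hγ]
      neg_mem' := by
        intro v hv γ hγ
        rw [map_neg, hv γ hγ] }
  have hbW : b ∈ W := fun γ hγ => hb ⟨γ, hγ⟩
  rcases Γ_irr D W (fun γ hγ w hw => by rw [hw γ hγ]; exact hw) with h | h
  · rw [h, AddSubgroup.mem_bot] at hbW
    exact hb0 hbW.symm
  · have hfix : ∀ v : D.V, ∀ γ ∈ Γ D, (γ : Module.End (ZMod p) D.V) v = v := by
      intro v
      have : v ∈ W := by rw [h]; trivial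
      exact this
    have hz : ∀ i, D.τ' [i] D.v₀ = 0 := by
      intro i
      have h1 := hfix D.v₀ _ (gZ_mem D i)
      rwa [gZ_val, LinearMap.add_apply, Module.End.one_apply, add_eq_left] at h1
    apply D.hv₀
    rw [← D.fix, LinearMap.sum_apply]
    refine Finset.sum_eq_zero fun i _ => ?_
    rw [Module.End.mul_apply, hz, map_zero]

lemma Aff_finite (g : Fin (k + 1) → Aff (Γ D)) : Finite (Subgroup.closure (Set.range g)) := by
  refine closure_Aff_finite g ?_
  have h1 := GG_finite D (fun j => ((g j).right : (Module.End (ZMod p) D.V)ˣ))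
    (fun j => Γ_le D (g j).right.2)
  have h2 : (Subgroup.closure (Set.range fun j => (g j).right)).map (Γ D).subtype
      = Subgroup.closure (Set.range fun j => ((g j).right : (Module.End (ZMod p) D.V)ˣ)) := by
    rw [MonoidHom.map_closure, ← Set.range_comp]
    rfl
  rw [← h2] at h1
  exact Finite.of_equiv _ (Subgroup.equivMapOfInjective _ _ (Γ D).subtype_injective).toEquiv.symm

lemma Aff_pgroup : IsPGroup p (Aff (Γ D)) := by
  intro g
  obtain ⟨n, hn⟩ := isPGroup_Γ D g.right
  have h1 : g ^ (p ^ n) ∈ N (Γ D) := by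
    rw [mem_N]
    have h2 : SemidirectProduct.rightHom (g ^ (p ^ n)) = (SemidirectProduct.rightHom g) ^ (p ^ n) :=
      map_pow _ _ _
    have h3 : (g ^ (p ^ n)).right = g.right ^ (p ^ n) := h2
    rw [h3, hn]
  obtain ⟨v, hv⟩ := h1
  refine ⟨n + 1, ?_⟩
  rw [pow_succ, pow_mul, ← hv, ← map_pow]
  have h4 : v ^ p = 1 := by
    have h5 : p • v.toAdd = 0 := by
      rw [← Nat.cast_smul_eq_nsmul (ZMod p), CharP.cast_eq_zero, zero_smul]
    exact h5
  rw [h4, map_one]

end Grp

/-- The main theorem. -/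
theorem main (p k : ℕ) (hp : p.Prime) :
    ∃ (G : Type) (_ : Group G) (N H : Subgroup G),
      Group.FG G ∧ IsPGroup p G ∧
      (∀ g : Fin k → G, Finite (Subgroup.closure (Set.range g))) ∧
      N.Normal ∧ Infinite N ∧ (∀ x ∈ N, ∀ y ∈ N, x * y = y * x) ∧
      (∀ M : Subgroup G, M.Normal → M ≠ ⊥ → N ≤ M) ∧
      Subgroup.centralizer (N : Set G) = N ∧
      IsCoatom H ∧ H ⊓ N = ⊥ ∧ H ⊔ N = ⊤ := by
  have : Fact p.Prime := ⟨hp⟩
  obtain ⟨D⟩ := nonempty_data p (k + 1)
  have hV : ∃ v : D.V, v ≠ 0 := ⟨D.v₀, D.hv₀⟩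
  refine ⟨Aff (Γ D), inferInstance, N (Γ D), H (Γ D), fg_Aff (Γ_irr D) hV (Γ_fg D), Aff_pgroup D,
    ?_, inferInstance, ?_, ?_, fun M hM hne => N_le_of_normal (Γ_irr D) hM hne, centralizer_N,
    H_coatom (Γ_irr D) hV, H_inf_N, H_sup_N⟩
  · intro g
    have h1 := Aff_finite D (Fin.cons 1 g)
    have h2 : Subgroup.closure (Set.range g) ≤
        Subgroup.closure (Set.range (Fin.cons 1 g : Fin (k + 1) → Aff (Γ D))) := by
      refine Subgroup.closure_mono ?_
      rintro _ ⟨j, rfl⟩
      exact ⟨j.succ, by simp⟩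
    exact Finite.of_injective _ (Subgroup.inclusion_injective h2)
  · have h1 := infinite_V D
    have h2 : Function.Injective (fun v : D.V => (⟨tr (Γ D) v, tr_mem_N (Γ D) v⟩ : N (Γ D))) := by
      intro v w hvw
      exact tr_injective (Γ D) (congrArg Subtype.val hvw)
    exact Infinite.of_injective _ h2
  · rintro _ ⟨v, rfl⟩ _ ⟨w, rfl⟩
    rw [← map_mul, ← map_mul, mul_comm]

end Pool.Agent.Helper808_Bin
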