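import Pool.Agent.Helper808_Bin.Step

/-!
# The limit functional on pairs of words

Written by helper808 for MP_eac726_al.
-/

set_option autoImplicit false

namespace Pool.Agent.Helper808_Bin

open Finset Filter

section Omega

variable {α K : Type} [Fintype α] [Field K]

/-- The functional on pairs of words given by two functionals of degree `G`. -/
def omega (G : ℕ) (Φ Ψ : List α → K) (x y : List α) : K :=
  if y.length ≤ G then wsum (G - y.length) (fun w => Φ (x ++ w) * Ψ (y ++ w)) else 0

lemma omega_symm {G : ℕ} {Φ Ψ : List α → K} (hΦ : Deg G Φ) (hΨ : Deg G Ψ) (x y : List α) :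
    omega G Φ Ψ x y = omega G Ψ Φ y x := by
  unfold omega
  by_cases h : x.length = y.length
  · rw [h]
    by_cases h1 : y.length ≤ G
    · rw [if_pos h1, if_pos h1]
      exact wsum_congr fun w _ => mul_comm _ _
    · rw [if_neg h1, if_neg h1]
  · have h1 : (if y.length ≤ G then wsum (G - y.length) (fun w => Φ (x ++ w) * Ψ (y ++ w)) else 0)
        = 0 := by
      split_ifs with h1
      · refine wsum_eq_zero fun w hw => ?_
        rw [hΦ, zero_mul]
        rw [List.length_append]
        omega
      · rfl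
    have h2 : (if x.length ≤ G then wsum (G - x.length) (fun w => Ψ (y ++ w) * Φ (x ++ w)) else 0)
        = 0 := by
      split_ifs with h2
      · refine wsum_eq_zero fun w hw => ?_
        rw [hΨ, zero_mul]
        rw [List.length_append]
        omega
      · rfl
    rw [h1, h2]

lemma omega_nil (G : ℕ) (Φ Ψ : List α → K) : omega G Φ Ψ [] [] = pair G Φ Ψ := by
  simp [omega, pair]

lemma omega_letters {G : ℕ} {Φ Ψ : List α → K} (hΦ : Deg G Φ) (x y : List α)
    (hy : y.length < G) :
    omega G Φ Ψ x y = ∑ i, omega G Φ Ψ (x ++ [i]) (y ++ [i]) := by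
  unfold omega
  rw [if_pos hy.le]
  obtain ⟨n, hn⟩ : ∃ n, G - y.length = n + 1 := ⟨G - y.length - 1, by omega⟩
  rw [hn, wsum_succ]
  refine Finset.sum_congr rfl fun i _ => ?_
  rw [if_pos (by rw [List.length_append, List.length_singleton]; omega)]
  have : G - (y ++ [i]).length = n := by
    rw [List.length_append, List.length_singleton]
    omega
  rw [this]
  simp

lemma E_omega {κ : Type} (X : κ → (List α →₀ K)) {N G : ℕ} {Φ : List α → K}
    (h : Good X N Φ) (Ψ : List α → K) (l : List κ) (hl : l.length = N) (u a y : List α) :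
    E X (fun x => omega G Φ Ψ x y) l u a = 0 := by
  unfold omega
  by_cases hy : y.length ≤ G
  · have h1 : (fun x => if y.length ≤ G then wsum (G - y.length)
        (fun w => Φ (x ++ w) * Ψ (y ++ w)) else 0)
        = ∑ f : Fin (G - y.length) → α, Ψ (y ++ List.ofFn f) • fun x => Φ (x ++ List.ofFn f) := by
      funext x
      rw [if_pos hy, Finset.sum_apply]
      unfold wsum
      refine Finset.sum_congr rfl fun f _ => ?_
      rw [Pi.smul_apply, smul_eq_mul, mul_comm]
    rw [h1, ← EL_apply, map_sum]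
    refine Finset.sum_eq_zero fun f _ => ?_
    rw [map_smul, EL_apply]
    have h2 : ∀ (l : List κ) (u : List α), E X (fun x => Φ (x ++ List.ofFn f)) l u a
        = E X Φ l u (a ++ List.ofFn f) := by
      intro l
      induction l with
      | nil => intro u; simp [E]
      | cons j l ih =>
        intro u
        simp_rw [E_cons, ih]
    rw [h2, h l hl, smul_zero]
  · have h1 : (fun x : List α => if y.length ≤ G then wsum (G - y.length)
        (fun w => Φ (x ++ w) * Ψ (y ++ w)) else 0) = 0 := by
      funext x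
      rw [if_neg hy]
      rfl
    rw [h1, ← EL_apply, map_zero]

end Omega

lemma cat_singleton {α ι K : Type} [Field K] {G : ℕ} {u : ι → List α → K} (h : ∀ i, Deg G (u i))
    (i : ι) : cat G u [i] = u i := by
  funext x
  simp only [cat, tens, one]
  by_cases h1 : x.length = G
  · rw [List.take_of_length_le h1.le, List.length_drop, if_pos (by omega), mul_one]
  · rw [h i x h1]
    by_cases h2 : x.length < G
    · rw [List.take_of_length_le h2.le, h i x h1, zero_mul]
    · rw [List.length_drop, if_neg (by omega), mul_zero]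

/-- A function with values in a finite set is constant along an ultrafilter. -/
lemma exists_eventually_eq {K : Type} [Fintype K] (F : Ultrafilter ℕ) (f : ℕ → K) :
    ∃ c, ∀ᶠ S in (F : Filter ℕ), f S = c := by
  classical
  by_contra hc
  have h1 : ∀ c, ∀ᶠ S in (F : Filter ℕ), ¬ f S = c := fun c =>
    Ultrafilter.eventually_not.mpr fun h => hc ⟨c, h⟩
  have h2 : ∀ᶠ S in (F : Filter ℕ), ∀ c, ¬ f S = c := Filter.eventually_all.mpr h1
  obtain ⟨S, hS⟩ := h2.exists
  exact hS (f S) rfl

/-- The functional `Λ` on pairs of words: it is invariant under the element `∑ y_i z_i`, takes the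
value one at the identity, and kills all long runs in both variables. -/
theorem exists_Lambda (K : Type) [Field K] [Fintype K] (k : ℕ) :
    ∃ Λ : List (Fin ((k + 2) ^ 4)) → List (Fin ((k + 2) ^ 4)) → K,
      Λ [] [] = 1 ∧ (∀ x y, Λ x y = ∑ i, Λ (x ++ [i]) (y ++ [i])) ∧
      ∀ X : Fin k → (List (Fin ((k + 2) ^ 4)) →₀ K), (∀ j, X j [] = 0) →
        ∃ N : ℕ, ∀ l : List (Fin k), l.length = N → ∀ u a v,
          E X (fun x => Λ x v) l u a = 0 ∧ E X (fun y => Λ v y) l u a = 0 := by
  classical
  let 𝒳 := {X : Fin k → (List (Fin ((k + 2) ^ 4)) →₀ K) // ∀ j, X j [] = 0}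
  have : Countable (List (Fin ((k + 2) ^ 4)) →₀ K) := inferInstance
  have : Nonempty 𝒳 := ⟨⟨0, fun j => rfl⟩⟩
  obtain ⟨X, hX⟩ := exists_surjective_nat 𝒳
  choose next n N h1 h2 h3 h4 h5 h6 using fun (σ : Stage ((k + 2) ^ 4) K) (Y : 𝒳) => step k σ Y.1 Y.2
  let σ : ℕ → Stage ((k + 2) ^ 4) K := fun s => Nat.rec (stage0 _ K) (fun t τ => next τ (X t)) s
  have hσ : ∀ s, σ (s + 1) = next (σ s) (X s) := fun s => rfl
  have hG : StrictMono fun s => (σ s).G := strictMono_nat_of_lt_succ fun s => by
    change (σ s).G < (σ (s + 1)).G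
    rw [hσ]
    exact h2 _ _
  have hsub : ∀ s t, ∃ n, (σ (s + t)).G = (σ s).G * n ∧
      (∀ i, (σ (s + t)).u i ∈ Cl (σ s).G (σ s).u n) ∧
      (∀ i, (σ (s + t)).w i ∈ Cl (σ s).G (σ s).w n) := by
    intro s t
    induction t with
    | zero =>
      refine ⟨1, (mul_one _).symm, fun i => ?_, fun i => ?_⟩
      · have := cat_mem_Cl (σ s).G (σ s).u [i]
        rwa [cat_singleton (σ s).hu] at this
      · have := cat_mem_Cl (σ s).G (σ s).w [i]
        rwa [cat_singleton (σ s).hw] at this
    | succ t ih =>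
      obtain ⟨n', hn1, hn2, hn3⟩ := ih
      have hst : σ (s + (t + 1)) = next (σ (s + t)) (X (s + t)) := hσ (s + t)
      rw [hst]
      refine ⟨n' * n (σ (s + t)) (X (s + t)), ?_, fun i => ?_, fun i => ?_⟩
      · rw [h1, hn1, mul_assoc]
      · have := h3 (σ (s + t)) (X (s + t)) i
        rw [hn1] at this
        exact Cl_le_of hn2 _ this
      · have := h4 (σ (s + t)) (X (s + t)) i
        rw [hn1] at this
        exact Cl_le_of hn3 _ this
  have hgood : ∀ s S, s + 1 ≤ S → (∀ i, Good (X s).1 (N (σ s) (X s)) ((σ S).u i)) ∧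
      (∀ i, Good (X s).1 (N (σ s) (X s)) ((σ S).w i)) := by
    intro s S hS
    obtain ⟨t, rfl⟩ := Nat.exists_eq_add_of_le hS
    obtain ⟨n', _, hn2, hn3⟩ := hsub (s + 1) t
    refine ⟨fun i => good_of_mem_span ?_ (hn2 i), fun i => good_of_mem_span ?_ (hn3 i)⟩
    · rintro _ ⟨J, _, rfl⟩
      exact h5 (σ s) (X s) J
    · rintro _ ⟨J, _, rfl⟩
      exact h6 (σ s) (X s) J
  have hd : ∀ s, 0 < (σ s).d := fun s => by
    rw [(σ s).hd]
    positivity
  let Ω : ℕ → List (Fin ((k + 2) ^ 4)) → List (Fin ((k + 2) ^ 4)) → K := fun s =>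
    omega (σ s).G ((σ s).u ⟨0, hd s⟩) ((σ s).w ⟨0, hd s⟩)
  choose Λ hΛ using fun x y => exists_eventually_eq (hyperfilter ℕ) (fun s => Ω s x y)
  have hat : ∀ {P : ℕ → Prop}, (∀ᶠ s in atTop, P s) → ∀ᶠ s in (hyperfilter ℕ : Filter ℕ), P s :=
    fun h => h.filter_mono Nat.hyperfilter_le_atTop
  refine ⟨Λ, ?_, ?_, ?_⟩
  · obtain ⟨s, hs⟩ := (hΛ [] []).exists
    rw [← hs]
    change omega _ _ _ [] [] = 1
    rw [omega_nil, (σ s).hp, if_pos rfl]
  · intro x y
    have ha : ∀ᶠ s in (hyperfilter ℕ : Filter ℕ), ∀ i, Ω s (x ++ [i]) (y ++ [i])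
        = Λ (x ++ [i]) (y ++ [i]) := Filter.eventually_all.mpr fun i => hΛ _ _
    have hb : ∀ᶠ s in (hyperfilter ℕ : Filter ℕ), y.length < (σ s).G := by
      refine hat ?_
      filter_upwards [Filter.eventually_gt_atTop y.length] with s hs
      exact lt_of_lt_of_le hs (hG.le_apply)
    obtain ⟨s, ⟨hs1, hs2⟩, hs3⟩ := ((ha.and hb).and (hΛ x y)).exists
    rw [← hs3]
    change omega _ _ _ x y = _
    rw [omega_letters ((σ s).hu _) x y hs2]
    exact Finset.sum_congr rfl fun i _ => hs1 i
  · intro Y hY
    obtain ⟨s, hs⟩ := hX ⟨Y, hY⟩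
    have hsY : (X s).1 = Y := by rw [hs]
    refine ⟨N (σ s) (X s), fun l hl u a v => ⟨?_, ?_⟩⟩
    · have hE : ∀ (l : List (Fin k)) (u : List (Fin ((k + 2) ^ 4))),
          ∀ᶠ S in (hyperfilter ℕ : Filter ℕ),
            E Y (fun x => Ω S x v) l u a = E Y (fun x => Λ x v) l u a := by
        intro l
        induction l with
        | nil => intro u; exact hΛ _ _
        | cons j l ih =>
          intro u
          have := (Filter.eventually_all_finset (Y j).support).mpr fun w _ => ih (u ++ w)
          filter_upwards [this] with S hS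
          rw [E_cons, E_cons]
          exact Finset.sum_congr rfl fun w hw => by
            beta_reduce
            rw [hS w hw]
      have hc : ∀ᶠ S in (hyperfilter ℕ : Filter ℕ), s + 1 ≤ S := hat (Filter.eventually_ge_atTop _)
      obtain ⟨S, hS1, hS2⟩ := ((hE l u).and hc).exists
      rw [← hS1]
      refine E_omega Y ?_ _ l hl u a v
      rw [← hsY]
      exact (hgood s S hS2).1 _
    · have hE : ∀ (l : List (Fin k)) (u : List (Fin ((k + 2) ^ 4))),
          ∀ᶠ S in (hyperfilter ℕ : Filter ℕ),
            E Y (fun x => Ω S v x) l u a = E Y (fun x => Λ v x) l u a := by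
        intro l
        induction l with
        | nil => intro u; exact hΛ _ _
        | cons j l ih =>
          intro u
          have := (Filter.eventually_all_finset (Y j).support).mpr fun w _ => ih (u ++ w)
          filter_upwards [this] with S hS
          rw [E_cons, E_cons]
          exact Finset.sum_congr rfl fun w hw => by
            beta_reduce
            rw [hS w hw]
      have hc : ∀ᶠ S in (hyperfilter ℕ : Filter ℕ), s + 1 ≤ S := hat (Filter.eventually_ge_atTop _)
      obtain ⟨S, hS1, hS2⟩ := ((hE l u).and hc).exists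
      rw [← hS1]
      have hsym : (fun y => Ω S v y) = fun y => omega (σ S).G ((σ S).w ⟨0, hd S⟩)
          ((σ S).u ⟨0, hd S⟩) y v := by
        funext y
        exact omega_symm ((σ S).hu _) ((σ S).hw _) v y
      rw [hsym]
      refine E_omega Y ?_ _ l hl u a v
      rw [← hsY]
      exact (hgood s S hS2).2 _

end Pool.Agent.Helper808_Bin
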