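import Pool.Agent.Helper808_Bin.Alg

/-!
# Unipotent groups of two commuting nil algebras

Written by helper808 for MP_eac726_al.
-/

set_option autoImplicit false

namespace Pool.Agent.Helper808_Bin

section Units

variable {A : Type} [Ring A] (p : ℕ) [Fact p.Prime] [CharP A p]
variable {K : Type} [Field K] [Algebra K A]

/-- The group of the units `1 + a`, `a ∈ P`, for a nil subalgebra `P`. -/
def unitSub (P : Submodule K A) (hmul : ∀ a ∈ P, ∀ b ∈ P, a * b ∈ P)
    (hnil : ∀ a ∈ P, ∃ N : ℕ, a ^ N = 0) : Subgroup Aˣ where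
  carrier := {u | (u : A) - 1 ∈ P}
  one_mem' := by
    change ((1 : Aˣ) : A) - 1 ∈ P
    rw [Units.val_one, sub_self]
    exact P.zero_mem
  mul_mem' := by
    intro u v hu hv
    change ((u * v : Aˣ) : A) - 1 ∈ P
    have h : ((u * v : Aˣ) : A) - 1 = ((u : A) - 1) * ((v : A) - 1) + ((u : A) - 1)
        + ((v : A) - 1) := by
      rw [Units.val_mul]
      noncomm_ring
    rw [h]
    exact P.add_mem (P.add_mem (hmul _ hu _ hv) hu) hv
  inv_mem' := by
    intro u hu
    have hpow : ∀ m : ℕ, ((u ^ m : Aˣ) : A) - 1 ∈ P := by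
      intro m
      induction m with
      | zero => simp [P.zero_mem]
      | succ m ih =>
        have h : ((u ^ (m + 1) : Aˣ) : A) - 1 = (((u ^ m : Aˣ) : A) - 1) * ((u : A) - 1)
            + (((u ^ m : Aˣ) : A) - 1) + ((u : A) - 1) := by
          rw [pow_succ, Units.val_mul]
          noncomm_ring
        rw [h]
        exact P.add_mem (P.add_mem (hmul _ ih _ hu) ih) hu
    obtain ⟨N, hN⟩ := hnil _ hu
    have h5 : (u : A) ^ (p ^ N) = 1 := pow_eq_one_of_nil p hN
    have h6 : u ^ (p ^ N) = 1 := Units.ext (by simpa using h5)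
    have h7 : u⁻¹ = u ^ (p ^ N - 1) := by
      rw [inv_eq_iff_mul_eq_one, ← pow_succ', Nat.sub_add_cancel, h6]
      exact Nat.one_le_pow _ _ (Fact.out : p.Prime).pos
    rw [h7]
    exact hpow _

/-- The product of two subgroups commuting elementwise. -/
def prodSub {G : Type} [Group G] (A B : Subgroup G) (h : ∀ a ∈ A, ∀ b ∈ B, a * b = b * a) :
    Subgroup G where
  carrier := {g | ∃ a ∈ A, ∃ b ∈ B, g = a * b}
  one_mem' := ⟨1, A.one_mem, 1, B.one_mem, (mul_one 1).symm⟩
  mul_mem' := by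
    rintro _ _ ⟨a, ha, b, hb, rfl⟩ ⟨a', ha', b', hb', rfl⟩
    refine ⟨a * a', A.mul_mem ha ha', b * b', B.mul_mem hb hb', ?_⟩
    calc a * b * (a' * b') = a * (b * a') * b' := by group
      _ = a * (a' * b) * b' := by rw [h a' ha' b hb]
      _ = a * a' * (b * b') := by group
  inv_mem' := by
    rintro _ ⟨a, ha, b, hb, rfl⟩
    refine ⟨a⁻¹, A.inv_mem ha, b⁻¹, B.inv_mem hb, ?_⟩
    rw [mul_inv_rev, h _ (A.inv_mem ha) _ (B.inv_mem hb)]

lemma finite_prodSub {G : Type} [Group G] (A B : Subgroup G)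
    (h : ∀ a ∈ A, ∀ b ∈ B, a * b = b * a) [Finite A] [Finite B] : Finite (prodSub A B h) := by
  have : Function.Surjective (fun q : A × B =>
      (⟨q.1.1 * q.2.1, q.1.1, q.1.2, q.2.1, q.2.2, rfl⟩ : prodSub A B h)) := by
    rintro ⟨_, a, ha, b, hb, rfl⟩
    exact ⟨(⟨a, ha⟩, ⟨b, hb⟩), rfl⟩
  exact Finite.of_surjective _ this

/-- Finitely many elements of the product of two commuting groups generate a finite group, if
their components do. -/
lemma closure_mul_finite {G : Type} [Group G] {κ : Type} (A B : Subgroup G)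
    (h : ∀ a ∈ A, ∀ b ∈ B, a * b = b * a) (g : κ → G) (hg : ∀ j, g j ∈ prodSub A B h)
    (hA : ∀ a : κ → G, (∀ j, a j ∈ A) → Finite (Subgroup.closure (Set.range a)))
    (hB : ∀ a : κ → G, (∀ j, a j ∈ B) → Finite (Subgroup.closure (Set.range a))) :
    Finite (Subgroup.closure (Set.range g)) := by
  choose a ha b hb hab using hg
  have h1 := hA a ha
  have h2 := hB b hb
  have hle1 : Subgroup.closure (Set.range a) ≤ A := by
    rw [Subgroup.closure_le]
    rintro _ ⟨j, rfl⟩
    exact ha j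
  have hle2 : Subgroup.closure (Set.range b) ≤ B := by
    rw [Subgroup.closure_le]
    rintro _ ⟨j, rfl⟩
    exact hb j
  have hc : ∀ x ∈ Subgroup.closure (Set.range a), ∀ y ∈ Subgroup.closure (Set.range b),
      x * y = y * x := fun x hx y hy => h x (hle1 hx) y (hle2 hy)
  have h3 := finite_prodSub _ _ hc
  have hle : Subgroup.closure (Set.range g) ≤ prodSub _ _ hc := by
    rw [Subgroup.closure_le]
    rintro _ ⟨j, rfl⟩
    exact ⟨a j, Subgroup.subset_closure ⟨j, rfl⟩, b j, Subgroup.subset_closure ⟨j, rfl⟩, hab j⟩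
  exact Finite.of_injective _ (Subgroup.inclusion_injective hle)

lemma pow_prodSub {G : Type} [Group G] (A B : Subgroup G)
    (h : ∀ a ∈ A, ∀ b ∈ B, a * b = b * a)
    (hA : ∀ a ∈ A, ∃ n : ℕ, a ^ (p ^ n) = 1) (hB : ∀ b ∈ B, ∃ n : ℕ, b ^ (p ^ n) = 1) :
    ∀ g ∈ prodSub A B h, ∃ n : ℕ, g ^ (p ^ n) = 1 := by
  rintro _ ⟨a, ha, b, hb, rfl⟩
  obtain ⟨m, hm⟩ := hA a ha
  obtain ⟨n, hn⟩ := hB b hb
  refine ⟨m + n, ?_⟩
  have hc : Commute a b := h a ha b hb
  rw [hc.mul_pow, pow_add, pow_mul, hm, one_pow, one_mul, mul_comm, pow_mul, hn, one_pow]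

end Units

end Pool.Agent.Helper808_Bin
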