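import Pool.Agent.Helper808_Bin.Lambda
import Pool.Agent.Helper808_Bin.Group
import Pool.Agent.Helper808_Bin.Units

/-!
# The simple module

Written by helper808 for MP_eac726_al.
-/

set_option autoImplicit false

namespace Pool.Agent.Helper808_Bin

section Mod

variable {α K : Type} [Field K]

/-- The functions of two words. -/
def Fn (α K : Type) := List α → List α → K

instance : AddCommGroup (Fn α K) := inferInstanceAs (AddCommGroup (List α → List α → K))

instance : Module K (Fn α K) := inferInstanceAs (Module K (List α → List α → K))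

/-- The translation operators. -/
def T (w w' : List α) : Module.End K (Fn α K) where
  toFun f := fun x y => f (x ++ w) (y ++ w')
  map_add' _ _ := rfl
  map_smul' _ _ := rfl

lemma T_apply (w w' : List α) (f : Fn α K) (x y : List α) :
    (T w w' : Module.End K (Fn α K)) f x y = f (x ++ w) (y ++ w') := rfl

lemma T_mul (w w' v v' : List α) :
    (T w w' : Module.End K (Fn α K)) * T v v' = T (w ++ v) (w' ++ v') := by
  refine LinearMap.ext fun f => ?_
  funext x y
  change f (x ++ w ++ v) (y ++ w' ++ v') = f (x ++ (w ++ v)) (y ++ (w' ++ v'))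
  rw [List.append_assoc, List.append_assoc]

lemma T_one : (T [] [] : Module.End K (Fn α K)) = 1 := by
  refine LinearMap.ext fun f => ?_
  funext x y
  change f (x ++ []) (y ++ []) = f x y
  rw [List.append_nil, List.append_nil]

variable (α K) in
/-- The algebra of the translation operators. -/
def Tr : Subalgebra K (Module.End K (Fn α K)) :=
  Algebra.adjoin K (Set.range fun q : List α × List α => T q.1 q.2)

/-- The translation operators as elements of the algebra. -/
def T' (w w' : List α) : Tr α K := ⟨T w w', Algebra.subset_adjoin ⟨(w, w'), rfl⟩⟩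

lemma T'_mul (w w' v v' : List α) : (T' w w' : Tr α K) * T' v v' = T' (w ++ v) (w' ++ v') :=
  Subtype.ext (T_mul w w' v v')

lemma T'_one : (T' [] [] : Tr α K) = 1 := Subtype.ext T_one

/-- The translates of a function span an invariant subspace. -/
lemma mem_translates (Λ : Fn α K) (s : Tr α K) :
    s.1 Λ ∈ Submodule.span K (Set.range fun q : List α × List α => T q.1 q.2 Λ) := by
  set M := Submodule.span K (Set.range fun q : List α × List α => T q.1 q.2 Λ) with hM
  have hΛ : Λ ∈ M := Submodule.subset_span ⟨([], []), by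
    change (T [] [] : Module.End K (Fn α K)) Λ = Λ
    rw [T_one]
    rfl⟩
  have key : ∀ e ∈ Tr α K, ∀ f ∈ M, e f ∈ M := by
    intro e he
    induction he using Algebra.adjoin_induction with
    | mem e he =>
      obtain ⟨⟨w, w'⟩, rfl⟩ := he
      intro f hf
      have h1 : M ≤ M.comap (T w w' : Module.End K (Fn α K)) := by
        refine Submodule.span_le.mpr ?_
        rintro _ ⟨⟨v, v'⟩, rfl⟩
        refine Submodule.subset_span ⟨(w ++ v, w' ++ v'), ?_⟩
        change (T (w ++ v) (w' ++ v') : Module.End K (Fn α K)) Λ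
          = (T w w' * T v v' : Module.End K (Fn α K)) Λ
        rw [T_mul]
      exact h1 hf
    | algebraMap r =>
      intro f hf
      exact M.smul_mem r hf
    | add e e' _ _ he he' =>
      intro f hf
      exact M.add_mem (he f hf) (he' f hf)
    | mul e e' _ _ he he' =>
      intro f hf
      exact he _ (he' f hf)
  exact key s.1 s.2 Λ hΛ

/-- A simple quotient of the module of a left ideal. -/
theorem exists_simple_aux {R : Type} [Ring R] [Algebra K R] (L : Submodule R R)
    (hL : (1 : R) ∉ L) :
    ∃ (V : Type) (_ : AddCommGroup V) (_ : Module K V) (π : R →ₐ[K] Module.End K V) (v₀ : V),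
      v₀ ≠ 0 ∧ (∀ s ∈ L, π s v₀ = 0) ∧ (∀ v, ∃ s, π s v₀ = v) ∧
      ∀ W : Submodule K V, (∀ s : R, ∀ w ∈ W, π s w ∈ W) → W = ⊥ ∨ W = ⊤ := by
  have hL' : L ≠ ⊤ := by
    intro h
    exact hL (by rw [h]; trivial)
  obtain ⟨M, hM, hLM⟩ : ∃ M : Submodule R R, IsCoatom M ∧ L ≤ M := by
    obtain ⟨M, hM, hLM⟩ := Ideal.exists_le_maximal L hL'
    exact ⟨M, Ideal.isMaximal_def.mp hM, hLM⟩
  have hM1 : (1 : R) ∉ M := fun h => hM.1 ((Ideal.eq_top_iff_one M).mpr h)
  have hsimple : IsSimpleModule R (R ⧸ M) := isSimpleModule_iff_isCoatom.mpr hM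
  refine ⟨R ⧸ M, inferInstance, inferInstance, Algebra.lsmul K K (R ⧸ M),
    Submodule.Quotient.mk 1, ?_, ?_, ?_, ?_⟩
  · intro h
    exact hM1 ((Submodule.Quotient.mk_eq_zero M).mp h)
  · intro s hs
    change s • (Submodule.Quotient.mk 1 : R ⧸ M) = 0
    rw [← Submodule.Quotient.mk_smul, smul_eq_mul, mul_one]
    exact (Submodule.Quotient.mk_eq_zero M).mpr (hLM hs)
  · intro v
    obtain ⟨s, rfl⟩ := Submodule.Quotient.mk_surjective M v
    refine ⟨s, ?_⟩
    change s • (Submodule.Quotient.mk 1 : R ⧸ M) = _
    rw [← Submodule.Quotient.mk_smul, smul_eq_mul, mul_one]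
  · intro W hW
    let W' : Submodule R (R ⧸ M) :=
      { carrier := W
        zero_mem' := W.zero_mem
        add_mem' := W.add_mem
        smul_mem' := hW }
    rcases eq_bot_or_eq_top W' with h | h
    · left
      rw [eq_bot_iff]
      intro w hw
      have : w ∈ W' := hw
      rw [h] at this
      exact this
    · right
      rw [eq_top_iff]
      intro w _
      have : w ∈ W' := by rw [h]; trivial
      exact this

/-- A simple quotient of a cyclic module. -/
theorem exists_simple_cyclic {R F : Type} [Ring R] [Algebra K R] [AddCommGroup F] [Module K F]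
    (ρ : R →ₐ[K] Module.End K F) (Λ : F) (hΛ : Λ ≠ 0) :
    ∃ (V : Type) (_ : AddCommGroup V) (_ : Module K V) (π : R →ₐ[K] Module.End K V) (v₀ : V),
      v₀ ≠ 0 ∧ (∀ s : R, ρ s Λ = 0 → π s v₀ = 0) ∧ (∀ v, ∃ s, π s v₀ = v) ∧
      ∀ W : Submodule K V, (∀ s : R, ∀ w ∈ W, π s w ∈ W) → W = ⊥ ∨ W = ⊤ := by
  let L : Submodule R R :=
    { carrier := {s | ρ s Λ = 0}
      zero_mem' := by simp
      add_mem' := by
        intro s t hs ht
        change ρ (s + t) Λ = 0
        rw [map_add, LinearMap.add_apply, hs, ht, add_zero]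
      smul_mem' := by
        intro c s hs
        change ρ (c * s) Λ = 0
        rw [map_mul, Module.End.mul_apply, hs, map_zero] }
  refine exists_simple_aux L ?_
  intro h
  apply hΛ
  have h1 : ρ 1 Λ = 0 := h
  rwa [map_one] at h1

/-- A simple module in which the annihilator of a vector contains the annihilator of `Λ`. -/
theorem exists_simple (Λ : Fn α K) (hΛ : Λ ≠ 0) :
    ∃ (V : Type) (_ : AddCommGroup V) (_ : Module K V) (π : Tr α K →ₐ[K] Module.End K V) (v₀ : V),
      v₀ ≠ 0 ∧ (∀ s : Tr α K, s.1 Λ = 0 → π s v₀ = 0) ∧ (∀ v, ∃ s, π s v₀ = v) ∧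
      ∀ W : Submodule K V, (∀ s : Tr α K, ∀ w ∈ W, π s w ∈ W) → W = ⊥ ∨ W = ⊤ :=
  exists_simple_cyclic (Tr α K).val Λ hΛ

lemma E_shift {κ : Type} (X : κ → (List α →₀ K)) (Ψ : List α → K) (w : List α) (l : List κ)
    (u a : List α) : E X (fun x => Ψ (x ++ w)) l u a = E X Ψ l u (a ++ w) := by
  induction l generalizing u with
  | nil => simp [E]
  | cons i l ih =>
    simp_rw [E_cons, ih]

/-- The evaluation at a pair of words. -/
def ev (x y : List α) : Fn α K →ₗ[K] K where
  toFun f := f x y
  map_add' _ _ := rfl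
  map_smul' _ _ := rfl

/-- The polynomials in the first variables. -/
noncomputable def yL : (List α →₀ K) →ₗ[K] Tr α K :=
  Finsupp.linearCombination K (fun w => T' w [])

/-- The polynomials in the second variables. -/
noncomputable def zL : (List α →₀ K) →ₗ[K] Tr α K :=
  Finsupp.linearCombination K (fun w => T' [] w)

lemma yL_apply (X : List α →₀ K) (f : Fn α K) (x y : List α) :
    (yL X).1 f x y = X.sum fun w c => c * f (x ++ w) y := by
  unfold yL
  rw [Finsupp.linearCombination_apply]
  unfold Finsupp.sum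
  have h : ((∑ w ∈ X.support, X w • (T' w [] : Tr α K) : Tr α K)).1
      = ∑ w ∈ X.support, X w • (T w [] : Module.End K (Fn α K)) := by
    rw [AddSubmonoidClass.coe_finsetSum]
    rfl
  rw [h, LinearMap.sum_apply]
  change ev x y (∑ w ∈ X.support, (X w • (T w [] : Module.End K (Fn α K))) f) = _
  rw [map_sum]
  refine Finset.sum_congr rfl fun w _ => ?_
  change X w * f (x ++ w) (y ++ []) = _
  rw [List.append_nil]

lemma zL_apply (X : List α →₀ K) (f : Fn α K) (x y : List α) :
    (zL X).1 f x y = X.sum fun w c => c * f x (y ++ w) := by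
  unfold zL
  rw [Finsupp.linearCombination_apply]
  unfold Finsupp.sum
  have h : ((∑ w ∈ X.support, X w • (T' [] w : Tr α K) : Tr α K)).1
      = ∑ w ∈ X.support, X w • (T [] w : Module.End K (Fn α K)) := by
    rw [AddSubmonoidClass.coe_finsetSum]
    rfl
  rw [h, LinearMap.sum_apply]
  change ev x y (∑ w ∈ X.support, (X w • (T [] w : Module.End K (Fn α K))) f) = _
  rw [map_sum]
  refine Finset.sum_congr rfl fun w _ => ?_
  change X w * f (x ++ []) (y ++ w) = _
  rw [List.append_nil]

lemma prod_yL {κ : Type} (X : κ → (List α →₀ K)) (l : List κ) (f : Fn α K) (x y : List α) :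
    ((l.map fun j => yL (X j)).prod : Tr α K).1 f x y = E X (fun x => f x y) l x [] := by
  induction l generalizing x with
  | nil =>
    change f x y = f (x ++ []) y
    rw [List.append_nil]
  | cons j l ih =>
    rw [List.map_cons, List.prod_cons, E_cons]
    change (yL (X j)).1 (((l.map fun j => yL (X j)).prod : Tr α K).1 f) x y = _
    rw [yL_apply]
    unfold Finsupp.sum
    refine Finset.sum_congr rfl fun w _ => ?_
    beta_reduce
    rw [ih]

lemma prod_zL {κ : Type} (X : κ → (List α →₀ K)) (l : List κ) (f : Fn α K) (x y : List α) :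
    ((l.map fun j => zL (X j)).prod : Tr α K).1 f x y = E X (fun y => f x y) l y [] := by
  induction l generalizing y with
  | nil =>
    change f x y = f x (y ++ [])
    rw [List.append_nil]
  | cons j l ih =>
    rw [List.map_cons, List.prod_cons, E_cons]
    change (zL (X j)).1 (((l.map fun j => zL (X j)).prod : Tr α K).1 f) x y = _
    rw [zL_apply]
    unfold Finsupp.sum
    refine Finset.sum_congr rfl fun w _ => ?_
    beta_reduce
    rw [ih]

/-- An operator killing all the translates of `Λ` acts as zero on the module. -/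
lemma zero_of_translates {V : Type} [AddCommGroup V] [Module K V] {Λ : Fn α K}
    {π : Tr α K →ₐ[K] Module.End K V} {v₀ : V}
    (h1 : ∀ s : Tr α K, s.1 Λ = 0 → π s v₀ = 0) (h2 : ∀ v, ∃ s, π s v₀ = v)
    (t : Tr α K) (ht : ∀ w w' : List α, t.1 (T w w' Λ) = 0) : π t = 0 := by
  refine LinearMap.ext fun v => ?_
  obtain ⟨s, rfl⟩ := h2 v
  change (π t * π s) v₀ = 0
  rw [← map_mul]
  apply h1
  change t.1 (s.1 Λ) = 0
  have h3 : Submodule.span K (Set.range fun q : List α × List α => T q.1 q.2 Λ)
      ≤ LinearMap.ker t.1 := by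
    rw [Submodule.span_le]
    rintro _ ⟨⟨w, w'⟩, rfl⟩
    exact ht w w'
  exact h3 (mem_translates Λ s)

end Mod

end Pool.Agent.Helper808_Bin
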