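import Pool.Agent.Helper808_Bin.Words

/-!
# One step of the construction of the functionals

Written by helper808 for MP_eac726_al.
-/

set_option autoImplicit false

namespace Pool.Agent.Helper808_Bin

open Finset

section LinAlg

variable {J C K : Type} [Fintype J] [Fintype C] [Field K]

/-- Two families of few linear conditions on vectors of the same length are satisfied by two
vectors with scalar product one. -/
lemma exists_pair (lam mu : C → J → K) (h : 2 * Fintype.card C < Fintype.card J) :
    ∃ a b : J → K, (∀ c, ∑ i, a i * lam c i = 0) ∧ (∀ c, ∑ i, b i * mu c i = 0) ∧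
      ∑ i, a i * b i = 1 := by
  classical
  let W : Submodule K (J → K) := Submodule.span K (Set.range lam)
  let M : (J → K) →ₗ[K] (C → K) :=
    { toFun := fun b c => ∑ i, b i * mu c i
      map_add' := fun b b' => by
        funext c
        simp [add_mul, Finset.sum_add_distrib]
      map_smul' := fun r b => by
        funext c
        simp [Finset.mul_sum, mul_assoc] }
  have hW : Module.finrank K W ≤ Fintype.card C := finrank_range_le_card lam
  have hM : Module.finrank K (LinearMap.range M) + Module.finrank K (LinearMap.ker M)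
      = Fintype.card J := by
    rw [LinearMap.finrank_range_add_finrank_ker, Module.finrank_fintype_fun_eq_card]
  have hR : Module.finrank K (LinearMap.range M) ≤ Fintype.card C := by
    have := Submodule.finrank_le (LinearMap.range M)
    rwa [Module.finrank_fintype_fun_eq_card] at this
  have hnot : ¬ LinearMap.ker M ≤ W := by
    intro hle
    have := Submodule.finrank_mono hle
    omega
  obtain ⟨b, hb1, hb2⟩ := Set.not_subset.mp hnot
  obtain ⟨f, hf1, hf2⟩ := Submodule.exists_le_ker_of_notMem hb2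
  have hf : ∀ v : J → K, f v = ∑ i, v i * f (Pi.single i 1) := by
    intro v
    rw [LinearMap.pi_apply_eq_sum_univ f v]
    refine Finset.sum_congr rfl fun i _ => ?_
    rw [smul_eq_mul]
    congr 2
    funext j
    simp [Pi.single_apply, eq_comm]
  refine ⟨fun i => f (Pi.single i 1) * (f b)⁻¹, b, ?_, ?_, ?_⟩
  · intro c
    have h1 : f (lam c) = 0 := hf2 (Submodule.subset_span ⟨c, rfl⟩)
    rw [hf] at h1
    calc ∑ i, f (Pi.single i 1) * (f b)⁻¹ * lam c i
        = (f b)⁻¹ * ∑ i, lam c i * f (Pi.single i 1) := by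
          rw [Finset.mul_sum]
          exact Finset.sum_congr rfl fun i _ => by ring
      _ = 0 := by rw [h1, mul_zero]
  · intro c
    have h1 : M b = 0 := hb1
    exact congrFun h1 c
  · calc ∑ i, f (Pi.single i 1) * (f b)⁻¹ * b i
        = (f b)⁻¹ * ∑ i, b i * f (Pi.single i 1) := by
          rw [Finset.mul_sum]
          exact Finset.sum_congr rfl fun i _ => by ring
      _ = 1 := by rw [← hf, inv_mul_cancel₀ hf1]

end LinAlg

/-- The list described by a function with values in `Option β`. -/
def dec {β : Type} {n : ℕ} (f : Fin n → Option β) : List β := (List.ofFn f).reduceOption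

lemma exists_dec {β : Type} (n : ℕ) (l : List β) (h : l.length ≤ n) :
    ∃ f : Fin n → Option β, dec f = l := by
  induction n generalizing l with
  | zero =>
    refine ⟨fun _ => none, ?_⟩
    rw [List.length_eq_zero_iff.mp (Nat.le_zero.mp h)]
    simp [dec]
  | succ n ih =>
    cases l with
    | nil =>
      obtain ⟨f, hf⟩ := ih [] (Nat.zero_le _)
      refine ⟨Fin.cons none f, ?_⟩
      unfold dec at hf ⊢
      rw [List.ofFn_succ]
      simpa using hf
    | cons b l =>
      obtain ⟨f, hf⟩ := ih l (by simpa using h)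
      refine ⟨Fin.cons (some b) f, ?_⟩
      unfold dec at hf ⊢
      rw [List.ofFn_succ]
      simpa using hf

section Cl

variable {α ι K : Type} [Field K]

/-- The functionals which are linear combinations of tensor products of `n` members of the
family `u`. -/
def Cl (G : ℕ) (u : ι → List α → K) (n : ℕ) : Submodule K (List α → K) :=
  Submodule.span K {Ψ | ∃ J : List ι, J.length = n ∧ cat G u J = Ψ}

lemma cat_mem_Cl (G : ℕ) (u : ι → List α → K) (J : List ι) : cat G u J ∈ Cl G u J.length :=
  Submodule.subset_span ⟨J, rfl, rfl⟩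

lemma tens_add_left (n : ℕ) (Φ Φ' Ψ : List α → K) :
    tens n (Φ + Φ') Ψ = tens n Φ Ψ + tens n Φ' Ψ := by
  funext w
  simp [tens, add_mul]

lemma tens_smul_left (n : ℕ) (c : K) (Φ Ψ : List α → K) :
    tens n (c • Φ) Ψ = c • tens n Φ Ψ := by
  funext w
  simp [tens, mul_assoc]

lemma tens_zero_left (n : ℕ) (Ψ : List α → K) : tens n 0 Ψ = 0 := by
  funext w
  simp [tens]

lemma tens_add_right (n : ℕ) (Φ Ψ Ψ' : List α → K) :
    tens n Φ (Ψ + Ψ') = tens n Φ Ψ + tens n Φ Ψ' := by
  funext w
  simp [tens, mul_add]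

lemma tens_smul_right (n : ℕ) (c : K) (Φ Ψ : List α → K) :
    tens n Φ (c • Ψ) = c • tens n Φ Ψ := by
  funext w
  simp [tens, mul_left_comm]

lemma tens_zero_right (n : ℕ) (Φ : List α → K) : tens n Φ 0 = 0 := by
  funext w
  simp [tens]

lemma tens_mem_Cl {G : ℕ} {u : ι → List α → K} {n n' : ℕ} {Φ Ψ : List α → K}
    (h : Φ ∈ Cl G u n) (h' : Ψ ∈ Cl G u n') : tens (G * n) Φ Ψ ∈ Cl G u (n + n') := by
  unfold Cl at h h'
  induction h using Submodule.span_induction with
  | mem Φ hΦ =>
    obtain ⟨I, hI, rfl⟩ := hΦ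
    induction h' using Submodule.span_induction with
    | mem Ψ hΨ =>
      obtain ⟨J, hJ, rfl⟩ := hΨ
      rw [← hI, ← hJ, ← cat_append, ← List.length_append]
      exact cat_mem_Cl G u (I ++ J)
    | zero => rw [tens_zero_right]; exact Submodule.zero_mem _
    | add x y _ _ hx hy => rw [tens_add_right]; exact Submodule.add_mem _ hx hy
    | smul c x _ hx => rw [tens_smul_right]; exact Submodule.smul_mem _ c hx
  | zero => rw [tens_zero_left]; exact Submodule.zero_mem _
  | add x y _ _ hx hy => rw [tens_add_left]; exact Submodule.add_mem _ hx hy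
  | smul c x _ hx => rw [tens_smul_left]; exact Submodule.smul_mem _ c hx

lemma cat_mem_Cl_of {ι' : Type} {G : ℕ} {u : ι → List α → K} {n : ℕ} {u' : ι' → List α → K}
    (h : ∀ i, u' i ∈ Cl G u n) (J : List ι') : cat (G * n) u' J ∈ Cl G u (n * J.length) := by
  induction J with
  | nil =>
    have := cat_mem_Cl G u ([] : List ι)
    simpa [cat] using this
  | cons i J ih =>
    have := tens_mem_Cl (h i) ih
    rw [List.length_cons, Nat.mul_succ, Nat.add_comm]
    exact this

lemma Cl_le_of {ι' : Type} {G : ℕ} {u : ι → List α → K} {n : ℕ} {u' : ι' → List α → K}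
    (h : ∀ i, u' i ∈ Cl G u n) (n' : ℕ) : Cl (G * n) u' n' ≤ Cl G u (n * n') := by
  unfold Cl
  rw [Submodule.span_le]
  rintro _ ⟨J, rfl, rfl⟩
  exact cat_mem_Cl_of h J

end Cl

section Good

variable {α κ K : Type} [Field K]

/-- All runs with `N` factors of the tuple `X` are killed by the functional `Ψ`. -/
def Good (X : κ → (List α →₀ K)) (N : ℕ) (Ψ : List α → K) : Prop :=
  ∀ l : List κ, l.length = N → ∀ u a : List α, E X Ψ l u a = 0

lemma good_of_mem_span {X : κ → (List α →₀ K)} {N : ℕ} {S : Set (List α → K)}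
    (h : ∀ Ψ ∈ S, Good X N Ψ) {Ψ : List α → K} (hΨ : Ψ ∈ Submodule.span K S) : Good X N Ψ := by
  intro l hl u a
  have : Submodule.span K S ≤ LinearMap.ker (EL X l u a) := by
    rw [Submodule.span_le]
    intro Θ hΘ
    exact h Θ hΘ l hl u a
  exact this hΨ

end Good

/-- The data of a stage: a family of functionals of degree `G` with a dual family. -/
structure Stage (m : ℕ) (K : Type) [Field K] where
  /-- number of members -/
  d : ℕ
  /-- degree -/
  G : ℕ
  /-- exponent -/
  e : ℕ
  /-- the first family -/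
  u : Fin d → List (Fin m) → K
  /-- the second family -/
  w : Fin d → List (Fin m) → K
  hu : ∀ i, Deg G (u i)
  hw : ∀ i, Deg G (w i)
  hp : ∀ i j, pair G (u i) (w j) = if i = j then 1 else 0
  hd : d = m ^ e
  he : G < 2 * e
  hG : 0 < G

/-- The first stage: the letters. -/
noncomputable def stage0 (m : ℕ) (K : Type) [Field K] : Stage m K where
  d := m
  G := 1
  e := 1
  u := fun i x => if x = [i] then 1 else 0
  w := fun i x => if x = [i] then 1 else 0
  hu := by
    intro i x hx
    refine if_neg ?_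
    rintro rfl
    simp at hx
  hw := by
    intro i x hx
    refine if_neg ?_
    rintro rfl
    simp at hx
  hp := by
    intro i j
    unfold pair
    rw [wsum_succ]
    simp_rw [wsum_zero]
    by_cases h : i = j
    · subst h
      simp
    · rw [if_neg h]
      refine Finset.sum_eq_zero fun a _ => ?_
      by_cases h1 : a = i
      · subst h1
        simp [h]
      · simp [h1]
  hd := (pow_one m).symm
  he := by norm_num
  hG := by norm_num

section Step

variable {K : Type} [Field K]

lemma count_ineq (k e Δ q G : ℕ) (hq : q = 5 * Δ + 1) (he : G < 2 * e) :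
    2 * (((k + 2) ^ 4 + 1) ^ Δ * ((k + 1) ^ (G * q) * ((k + 2) ^ 4 + 1) ^ Δ))
      < ((((k + 2) ^ 4) ^ e)) ^ q := by
  set B := k + 2 with hB
  have hB2 : 2 ≤ B := by omega
  have h1 : B ^ 4 + 1 ≤ B ^ 5 := by
    have : 1 ≤ B ^ 4 := Nat.one_le_pow _ _ (by omega)
    calc B ^ 4 + 1 ≤ B ^ 4 * 2 := by omega
      _ ≤ B ^ 4 * B := Nat.mul_le_mul_left _ hB2
      _ = B ^ 5 := by ring
  have h2 : (B ^ 4 + 1) ^ Δ ≤ B ^ (5 * Δ) := by
    rw [pow_mul]
    exact Nat.pow_le_pow_left h1 Δ
  have h3 : (k + 1) ^ (G * q) ≤ B ^ (G * q) := Nat.pow_le_pow_left (by omega) _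
  calc 2 * ((B ^ 4 + 1) ^ Δ * ((k + 1) ^ (G * q) * (B ^ 4 + 1) ^ Δ))
      ≤ B * (B ^ (5 * Δ) * (B ^ (G * q) * B ^ (5 * Δ))) := by gcongr
    _ = B ^ (1 + 10 * Δ + G * q) := by
        rw [← pow_add, ← pow_add, ← pow_succ']
        congr 1
        ring
    _ < B ^ (4 * (e * q)) := by
        apply Nat.pow_lt_pow_right (by omega)
        have h4 : (G + 1) * q ≤ 2 * e * q := Nat.mul_le_mul_right q he
        have h5 : 0 < q := by omega
        nlinarith
    _ = ((B ^ 4) ^ e) ^ q := by
        rw [← pow_mul, ← pow_mul]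

/-- The kills of a new stage. -/
lemma stage_kill {m k : ℕ} (X : Fin k → (List (Fin m) →₀ K)) (hX : ∀ j, X j [] = 0) {Δ : ℕ}
    (hΔ : ∀ j, ∀ w ∈ (X j).support, w.length ≤ Δ) {L G r d d' : ℕ} (hL : Δ < L)
    {φ : List (Fin m) → K} (hφ : Deg L φ)
    (hk : ∀ (l : List (Fin k)) (s t : List (Fin m)), s.length ≤ Δ → t.length ≤ Δ →
      E X φ l s t = 0)
    (u : Fin d → List (Fin m) → K) (hu : ∀ i, Deg G (u i)) (f : Fin d' → List (Fin d))
    (hf : ∀ j, (f j).length = r) (J : List (Fin d')) :
    Good X (L + G * r + L) (cat (L + G * r) (fun j => tens L φ (cat G u (f j))) J) := by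
  intro l hl x a
  set G' := L + G * r with hG'
  set u' : Fin d' → List (Fin m) → K := fun j => tens L φ (cat G u (f j)) with hu'
  have hdu' : ∀ j, Deg G' (u' j) := by
    intro j
    have := deg_cat hu (f j)
    rw [hf j] at this
    exact hφ.tens this
  rcases Nat.lt_or_ge (G' * J.length) (x.length + l.length + a.length) with h | h
  · exact E_eq_zero_of_lt X (deg_cat hdu' J) hX l x a h
  have hG'0 : 0 < G' := by omega
  have h1 : x.length < G' * (x.length / G' + 1) := Nat.lt_mul_div_succ x.length hG'0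
  have h2 : G' * (x.length / G' + 1) ≤ x.length + G' := by
    rw [Nat.mul_succ]
    have := Nat.mul_div_le x.length G'
    omega
  set i := x.length / G' + 1 with hi
  have h3 : G' * i + L ≤ G' * J.length - a.length := by omega
  have h4 : i < J.length := by
    by_contra hc
    push Not at hc
    have := Nat.mul_le_mul_left G' hc
    omega
  have hJ : J = J.take i ++ J[i] :: J.drop (i + 1) := by
    rw [List.getElem_cons_drop, List.take_append_drop]
  have hlt : (J.take i).length = i := by
    rw [List.length_take]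
    omega
  have hcat : cat G' u' J = tens (G' * i) (cat G' u' (J.take i))
      (tens L φ (tens (G * r) (cat G u (f J[i])) (cat G' u' (J.drop (i + 1))))) := by
    conv_lhs => rw [hJ]
    rw [cat_append, hlt]
    congr 1
    rw [cat, hu']
    beta_reduce
    rw [hG', tens_assoc]
  rw [hcat]
  have hd2 : Deg (G * r + G' * (J.drop (i + 1)).length)
      (tens (G * r) (cat G u (f J[i])) (cat G' u' (J.drop (i + 1)))) := by
    have h5 := deg_cat hu (f J[i])
    rw [hf] at h5
    exact h5.tens (deg_cat hdu' _)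
  refine E_kill X hφ hd2 hΔ hL hk l x a h1.le ?_
  rw [List.length_drop]
  have h6 : G' * (J.length - (i + 1)) = G' * J.length - G' * i - G' := by
    rw [Nat.mul_sub, Nat.mul_succ]
    omega
  have h7 : G' * (i + 1) ≤ G' * J.length := Nat.mul_le_mul_left _ h4
  rw [Nat.mul_succ] at h7
  omega

/-- One step of the construction. -/
theorem step (k : ℕ) (σ : Stage ((k + 2) ^ 4) K)
    (X : Fin k → (List (Fin ((k + 2) ^ 4)) →₀ K)) (hX : ∀ j, X j [] = 0) :
    ∃ (σ' : Stage ((k + 2) ^ 4) K) (n N : ℕ), σ'.G = σ.G * n ∧ σ.G < σ'.G ∧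
      (∀ i, σ'.u i ∈ Cl σ.G σ.u n) ∧ (∀ i, σ'.w i ∈ Cl σ.G σ.w n) ∧
      (∀ J, Good X N (cat σ'.G σ'.u J)) ∧ (∀ J, Good X N (cat σ'.G σ'.w J)) := by
  classical
  obtain ⟨Δ, hΔ⟩ : ∃ Δ : ℕ, ∀ j, ∀ w ∈ (X j).support, w.length ≤ Δ := by
    refine ⟨Finset.univ.sup fun j => (X j).support.sup List.length, fun j w hw => ?_⟩
    exact (Finset.le_sup (f := List.length) hw).trans
      (Finset.le_sup (f := fun j => (X j).support.sup List.length) (Finset.mem_univ j))
  set q := 5 * Δ + 1 with hq
  set L := σ.G * q with hL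
  have hΔL : Δ < L := by
    have : 1 * q ≤ σ.G * q := Nat.mul_le_mul_right q σ.hG
    omega
  set r := L + 1 with hr
  let C := (Fin Δ → Option (Fin ((k + 2) ^ 4))) × ((Fin L → Option (Fin k)) ×
    (Fin Δ → Option (Fin ((k + 2) ^ 4))))
  let J := Fin q → Fin σ.d
  have hcard : 2 * Fintype.card C < Fintype.card J := by
    simp only [C, J, Fintype.card_prod, Fintype.card_fun, Fintype.card_option, Fintype.card_fin]
    rw [σ.hd]
    exact count_ineq k σ.e Δ q σ.G hq σ.he
  let lam : C → J → K := fun c I => E X (cat σ.G σ.u (List.ofFn I)) (dec c.2.1) (dec c.1) (dec c.2.2)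
  let mu : C → J → K := fun c I => E X (cat σ.G σ.w (List.ofFn I)) (dec c.2.1) (dec c.1) (dec c.2.2)
  obtain ⟨a, b, ha, hb, hab⟩ := exists_pair lam mu hcard
  set φ : List (Fin ((k + 2) ^ 4)) → K := fun x => ∑ I : J, a I * cat σ.G σ.u (List.ofFn I) x
    with hφ
  set ψ : List (Fin ((k + 2) ^ 4)) → K := fun x => ∑ I : J, b I * cat σ.G σ.w (List.ofFn I) x
    with hψ
  have hφ' : φ = ∑ I : J, a I • cat σ.G σ.u (List.ofFn I) := by
    funext x
    rw [hφ, Finset.sum_apply]
    rfl
  have hψ' : ψ = ∑ I : J, b I • cat σ.G σ.w (List.ofFn I) := by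
    funext x
    rw [hψ, Finset.sum_apply]
    rfl
  have hdφ : Deg L φ := by
    intro x hx
    refine Finset.sum_eq_zero fun I _ => ?_
    have h1 := deg_cat σ.hu (List.ofFn I)
    rw [List.length_ofFn] at h1
    rw [h1 x hx, mul_zero]
  have hdψ : Deg L ψ := by
    intro x hx
    refine Finset.sum_eq_zero fun I _ => ?_
    have h1 := deg_cat σ.hw (List.ofFn I)
    rw [List.length_ofFn] at h1
    rw [h1 x hx, mul_zero]
  have hkφ : ∀ (l : List (Fin k)) (s t : List (Fin ((k + 2) ^ 4))), s.length ≤ Δ →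
      t.length ≤ Δ → E X φ l s t = 0 := by
    intro l s t hs ht
    rcases Nat.lt_or_ge L l.length with hl | hl
    · exact E_eq_zero_of_lt X hdφ hX l s t (by omega)
    · obtain ⟨l', rfl⟩ := exists_dec L l hl
      obtain ⟨s', rfl⟩ := exists_dec Δ s hs
      obtain ⟨t', rfl⟩ := exists_dec Δ t ht
      have h1 := ha (s', l', t')
      rw [← EL_apply, hφ', map_sum]
      rw [← h1]
      refine Finset.sum_congr rfl fun I _ => ?_
      rw [map_smul, EL_apply, smul_eq_mul]
  have hkψ : ∀ (l : List (Fin k)) (s t : List (Fin ((k + 2) ^ 4))), s.length ≤ Δ →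
      t.length ≤ Δ → E X ψ l s t = 0 := by
    intro l s t hs ht
    rcases Nat.lt_or_ge L l.length with hl | hl
    · exact E_eq_zero_of_lt X hdψ hX l s t (by omega)
    · obtain ⟨l', rfl⟩ := exists_dec L l hl
      obtain ⟨s', rfl⟩ := exists_dec Δ s hs
      obtain ⟨t', rfl⟩ := exists_dec Δ t ht
      have h1 := hb (s', l', t')
      rw [← EL_apply, hψ', map_sum]
      rw [← h1]
      refine Finset.sum_congr rfl fun I _ => ?_
      rw [map_smul, EL_apply, smul_eq_mul]
  have hpair : pair L φ ψ = 1 := by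
    rw [hφ, hψ, pair_sum_sum, ← hab]
    refine Finset.sum_congr rfl fun I _ => ?_
    rw [Finset.sum_eq_single I]
    · have h1 := pair_cat σ.hp (List.ofFn I) (List.ofFn I) rfl
      rw [List.length_ofFn, if_pos rfl] at h1
      rw [h1, mul_one]
    · intro I' _ hI'
      have h1 := pair_cat σ.hp (List.ofFn I) (List.ofFn I') (by simp)
      rw [List.length_ofFn, if_neg (fun h => hI' (List.ofFn_injective h).symm)] at h1
      rw [h1, mul_zero]
    · intro h
      exact absurd (Finset.mem_univ _) h
  let f : Fin (σ.d ^ r) → List (Fin σ.d) := fun j => List.ofFn (finFunctionFinEquiv.symm j)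
  have hf : ∀ j, (f j).length = r := fun j => List.length_ofFn
  have hdeg : ∀ {v : Fin σ.d → List (Fin ((k + 2) ^ 4)) → K} (_ : ∀ i, Deg σ.G (v i))
      {θ : List (Fin ((k + 2) ^ 4)) → K} (_ : Deg L θ) (j : Fin (σ.d ^ r)),
      Deg (L + σ.G * r) (tens L θ (cat σ.G v (f j))) := by
    intro v hv θ hθ j
    have h1 := deg_cat hv (f j)
    rw [hf j] at h1
    exact hθ.tens h1
  refine ⟨{ d := σ.d ^ r
            G := L + σ.G * r
            e := σ.e * r
            u := fun j => tens L φ (cat σ.G σ.u (f j))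
            w := fun j => tens L ψ (cat σ.G σ.w (f j))
            hu := hdeg σ.hu hdφ
            hw := hdeg σ.hw hdψ
            hp := ?_
            hd := ?_
            he := ?_
            hG := ?_ }, q + r, L + σ.G * r + L, ?_, ?_, ?_, ?_, ?_, ?_⟩
  · intro i j
    rw [pair_tens, hpair, one_mul]
    have h1 := pair_cat σ.hp (f i) (f j) (by rw [hf, hf])
    rw [hf] at h1
    rw [h1]
    by_cases hij : i = j
    · rw [if_pos hij, if_pos (by rw [hij])]
    · rw [if_neg hij, if_neg]
      intro h2
      exact hij (finFunctionFinEquiv.symm.injective (List.ofFn_injective h2))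
  · rw [pow_mul, ← σ.hd]
  · have h1 : (σ.G + 1) * r ≤ 2 * σ.e * r := Nat.mul_le_mul_right r σ.he
    have h2 : 2 * (σ.e * r) = 2 * σ.e * r := by ring
    rw [h2]
    refine lt_of_lt_of_le ?_ h1
    rw [add_mul, one_mul]
    omega
  · omega
  · change L + σ.G * r = σ.G * (q + r)
    rw [Nat.mul_add σ.G q r]
  · change σ.G < L + σ.G * r
    have h1 : σ.G * 1 ≤ σ.G * r := Nat.mul_le_mul_left _ (by omega)
    omega
  · intro j
    change tens L φ (cat σ.G σ.u (f j)) ∈ Cl σ.G σ.u (q + r)
    have h1 : φ ∈ Cl σ.G σ.u q := by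
      rw [hφ']
      refine Submodule.sum_mem _ fun I _ => Submodule.smul_mem _ _ ?_
      have := cat_mem_Cl σ.G σ.u (List.ofFn I)
      rwa [List.length_ofFn] at this
    have h2 := cat_mem_Cl σ.G σ.u (f j)
    rw [hf j] at h2
    exact tens_mem_Cl h1 h2
  · intro j
    change tens L ψ (cat σ.G σ.w (f j)) ∈ Cl σ.G σ.w (q + r)
    have h1 : ψ ∈ Cl σ.G σ.w q := by
      rw [hψ']
      refine Submodule.sum_mem _ fun I _ => Submodule.smul_mem _ _ ?_
      have := cat_mem_Cl σ.G σ.w (List.ofFn I)
      rwa [List.length_ofFn] at this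
    have h2 := cat_mem_Cl σ.G σ.w (f j)
    rw [hf j] at h2
    exact tens_mem_Cl h1 h2
  · intro I
    exact stage_kill X hX hΔ hΔL hdφ hkφ σ.u σ.hu f hf I
  · intro I
    exact stage_kill X hX hΔ hΔL hdψ hkψ σ.w σ.hw f hf I

end Step

end Pool.Agent.Helper808_Bin
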