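import Mathlib

/-!
# Functionals on words: tensor products, pairings, runs

Written by helper808 for MP_eac726_al.  A functional on the free algebra with letters `α` is a
function on the words `List α`.  `tens` is the tensor product of a functional of degree `n` with
another one, `cat` the iterated tensor product of a family, `pair` the pairing of two functionals
of degree `n`, and `E` the value of a functional on a word times a product of polynomials times a
word.
-/

set_option autoImplicit false

namespace Pool.Agent.Helper808_Bin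

open Finset

section Words

variable {α K : Type} [Fintype α] [Field K]

/-- The sum of a function over the words of length `n`. -/
def wsum (n : ℕ) (F : List α → K) : K := ∑ w : Fin n → α, F (List.ofFn w)

lemma wsum_zero (F : List α → K) : wsum 0 F = F [] := by
  simp [wsum]

lemma wsum_succ (n : ℕ) (F : List α → K) :
    wsum (n + 1) F = ∑ a, wsum n (fun w => F (a :: w)) := by
  unfold wsum
  rw [← (Fin.consEquiv (fun _ : Fin (n + 1) => α)).sum_comp, Fintype.sum_prod_type]
  refine Finset.sum_congr rfl fun a _ => Finset.sum_congr rfl fun f _ => ?_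
  simp [Fin.consEquiv, List.ofFn_succ]

lemma wsum_congr {n : ℕ} {F F' : List α → K} (h : ∀ w : List α, w.length = n → F w = F' w) :
    wsum n F = wsum n F' :=
  Finset.sum_congr rfl fun _ _ => h _ (List.length_ofFn)

lemma wsum_add (n n' : ℕ) (F : List α → K) :
    wsum (n + n') F = wsum n (fun w => wsum n' (fun w' => F (w ++ w'))) := by
  induction n generalizing F with
  | zero => simp [wsum_zero]
  | succ n ih =>
    rw [Nat.add_right_comm, wsum_succ, wsum_succ]
    refine Finset.sum_congr rfl fun a _ => ?_
    rw [ih]
    simp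

lemma wsum_eq_zero {n : ℕ} {F : List α → K} (h : ∀ w : List α, w.length = n → F w = 0) :
    wsum n F = 0 :=
  Finset.sum_eq_zero fun _ _ => h _ (List.length_ofFn)

lemma mul_wsum (n : ℕ) (c : K) (F : List α → K) : c * wsum n F = wsum n (fun w => c * F w) := by
  simp [wsum, Finset.mul_sum]

lemma wsum_sum {ι : Type*} (s : Finset ι) (n : ℕ) (F : ι → List α → K) :
    wsum n (fun w => ∑ i ∈ s, F i w) = ∑ i ∈ s, wsum n (F i) := by
  unfold wsum
  rw [Finset.sum_comm]

end Words

section Tens

variable {α K : Type} [Field K]

/-- `Φ` is supported on the words of length `n`. -/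
def Deg (n : ℕ) (Φ : List α → K) : Prop := ∀ w : List α, w.length ≠ n → Φ w = 0

/-- The tensor product, the first factor acting on the first `n` letters. -/
def tens (n : ℕ) (Φ Ψ : List α → K) : List α → K := fun w => Φ (w.take n) * Ψ (w.drop n)

/-- The functional of degree zero with value one on the empty word. -/
def one : List α → K := fun w => if w.length = 0 then 1 else 0

/-- The tensor product of a list of functionals of degree `G` of a family. -/
def cat (G : ℕ) {ι : Type} (u : ι → List α → K) : List ι → List α → K
  | [] => one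
  | i :: I => tens G (u i) (cat G u I)

lemma deg_one : Deg 0 (one : List α → K) := by
  intro w hw
  simp [one, hw]

lemma Deg.tens {n n' : ℕ} {Φ Ψ : List α → K} (h : Deg n Φ) (h' : Deg n' Ψ) :
    Deg (n + n') (tens n Φ Ψ) := by
  intro w hw
  unfold Pool.Agent.Helper808_Bin.tens
  by_cases h1 : (w.take n).length = n
  · rw [h' (w.drop n), mul_zero]
    rw [List.length_take] at h1
    rw [List.length_drop]
    omega
  · rw [h _ h1, zero_mul]

lemma deg_cat {G : ℕ} {ι : Type} {u : ι → List α → K} (h : ∀ i, Deg G (u i)) (I : List ι) :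
    Deg (G * I.length) (cat G u I) := by
  induction I with
  | nil => exact deg_one
  | cons i I ih =>
    have := (h i).tens ih
    rw [List.length_cons, Nat.mul_succ, Nat.add_comm]
    exact this

lemma tens_assoc (a b : ℕ) (Φ Ψ Θ : List α → K) :
    tens (a + b) (tens a Φ Ψ) Θ = tens a Φ (tens b Ψ Θ) := by
  funext w
  unfold tens
  rw [List.take_take, List.drop_take, List.drop_drop, Nat.min_eq_left (Nat.le_add_right a b),
    Nat.add_sub_cancel_left, mul_assoc]

lemma one_tens (Ψ : List α → K) : tens 0 one Ψ = Ψ := by
  funext w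
  simp [tens, one]

lemma cat_append (G : ℕ) {ι : Type} (u : ι → List α → K) (I J : List ι) :
    cat G u (I ++ J) = tens (G * I.length) (cat G u I) (cat G u J) := by
  induction I with
  | nil => simp [cat, one_tens]
  | cons i I ih =>
    rw [List.cons_append, cat, ih, cat, List.length_cons, Nat.mul_succ, Nat.add_comm (G * _) G,
      tens_assoc]

lemma tens_append {n : ℕ} {Φ Ψ : List α → K} {w w' : List α} (h : w.length = n) :
    tens n Φ Ψ (w ++ w') = Φ w * Ψ w' := by
  subst h
  simp [tens]

end Tens

section Pair

variable {α K : Type} [Fintype α] [Field K]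

/-- The pairing of two functionals of degree `n`. -/
def pair (n : ℕ) (Φ Ψ : List α → K) : K := wsum n (fun w => Φ w * Ψ w)

lemma pair_tens (n n' : ℕ) (Φ Φ' Ψ Ψ' : List α → K) :
    pair (n + n') (tens n Φ Φ') (tens n Ψ Ψ') = pair n Φ Ψ * pair n' Φ' Ψ' := by
  unfold pair
  rw [wsum_add]
  have : ∀ w : List α, w.length = n →
      (wsum n' fun w' => tens n Φ Φ' (w ++ w') * tens n Ψ Ψ' (w ++ w'))
        = (Φ w * Ψ w) * wsum n' (fun w' => Φ' w' * Ψ' w') := by
    intro w hw
    rw [mul_wsum]
    refine wsum_congr fun w' _ => ?_
    rw [tens_append hw, tens_append hw]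
    ring
  rw [wsum_congr this]
  unfold wsum
  rw [Finset.sum_mul]

lemma pair_one : pair 0 (one : List α → K) one = 1 := by
  simp [pair, wsum_zero, one]

lemma pair_cat {G : ℕ} {ι : Type} [DecidableEq ι] {u w : ι → List α → K}
    (h : ∀ i j, pair G (u i) (w j) = if i = j then 1 else 0) :
    ∀ I J : List ι, I.length = J.length →
      pair (G * I.length) (cat G u I) (cat G w J) = if I = J then 1 else 0
  | [], [], _ => by simpa [cat] using pair_one
  | i :: I, j :: J, hl => by
    rw [List.length_cons, Nat.mul_succ, Nat.add_comm, cat, cat, pair_tens, h,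
      pair_cat h I J (by simpa using hl)]
    by_cases h1 : i = j <;> by_cases h2 : I = J <;> simp [h1, h2]

lemma pair_sum_sum {ι κ : Type*} (s : Finset ι) (t : Finset κ) (n : ℕ) (a : ι → K) (b : κ → K)
    (f : ι → List α → K) (g : κ → List α → K) :
    pair n (fun x => ∑ i ∈ s, a i * f i x) (fun x => ∑ j ∈ t, b j * g j x)
      = ∑ i ∈ s, ∑ j ∈ t, a i * b j * pair n (f i) (g j) := by
  unfold pair
  have : (fun w : List α => (∑ i ∈ s, a i * f i w) * ∑ j ∈ t, b j * g j w)
      = fun w => ∑ i ∈ s, ∑ j ∈ t, a i * b j * (f i w * g j w) := by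
    funext w
    rw [Finset.sum_mul_sum]
    refine Finset.sum_congr rfl fun i _ => Finset.sum_congr rfl fun j _ => ?_
    ring
  rw [this, wsum_sum]
  refine Finset.sum_congr rfl fun i _ => ?_
  rw [wsum_sum]
  refine Finset.sum_congr rfl fun j _ => ?_
  rw [mul_wsum]

end Pair

section Runs

variable {α κ K : Type} [Field K]

/-- The value of the functional `Ψ` on the word `u`, times the product of the polynomials `X j`
for `j` in the list, times the word `a`. -/
def E (X : κ → (List α →₀ K)) (Ψ : List α → K) : List κ → List α → List α → K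
  | [], u, a => Ψ (u ++ a)
  | j :: l, u, a => (X j).sum fun w c => c * E X Ψ l (u ++ w) a

variable (X : κ → (List α →₀ K))

lemma E_nil (Ψ : List α → K) (u a : List α) : E X Ψ [] u a = Ψ (u ++ a) := rfl

lemma E_cons (Ψ : List α → K) (j : κ) (l : List κ) (u a : List α) :
    E X Ψ (j :: l) u a = (X j).sum fun w c => c * E X Ψ l (u ++ w) a := rfl

lemma E_concat (Ψ : List α → K) (l : List κ) (j : κ) (u a : List α) :
    E X Ψ (l ++ [j]) u a = (X j).sum fun w c => c * E X Ψ l u (w ++ a) := by
  induction l generalizing u with
  | nil =>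
    simp [E]
  | cons i l ih =>
    rw [List.cons_append, E_cons]
    simp_rw [ih, E_cons]
    unfold Finsupp.sum
    simp_rw [Finset.mul_sum]
    rw [Finset.sum_comm]
    refine Finset.sum_congr rfl fun w _ => Finset.sum_congr rfl fun w' _ => ?_
    ring

lemma E_add (Ψ Ψ' : List α → K) (l : List κ) (u a : List α) :
    E X (Ψ + Ψ') l u a = E X Ψ l u a + E X Ψ' l u a := by
  induction l generalizing u with
  | nil => simp [E]
  | cons i l ih =>
    simp_rw [E_cons, ih, mul_add]
    unfold Finsupp.sum
    rw [Finset.sum_add_distrib]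

lemma E_smul (c : K) (Ψ : List α → K) (l : List κ) (u a : List α) :
    E X (c • Ψ) l u a = c * E X Ψ l u a := by
  induction l generalizing u with
  | nil => simp [E]
  | cons i l ih =>
    simp_rw [E_cons, ih]
    unfold Finsupp.sum
    rw [Finset.mul_sum]
    refine Finset.sum_congr rfl fun w _ => ?_
    ring

/-- `E` as a linear map in the functional. -/
def EL (l : List κ) (u a : List α) : (List α → K) →ₗ[K] K where
  toFun Ψ := E X Ψ l u a
  map_add' Ψ Ψ' := E_add X Ψ Ψ' l u a
  map_smul' c Ψ := by simpa using E_smul X c Ψ l u a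

lemma EL_apply (Ψ : List α → K) (l : List κ) (u a : List α) : EL X l u a Ψ = E X Ψ l u a := rfl

lemma E_congr {Ψ Ψ' : List α → K} (l : List κ) (u a : List α)
    (h : ∀ w : List α, Ψ (u ++ (w ++ a)) = Ψ' (u ++ (w ++ a))) :
    E X Ψ l u a = E X Ψ' l u a := by
  induction l generalizing u with
  | nil => simpa [E] using h []
  | cons i l ih =>
    simp_rw [E_cons]
    unfold Finsupp.sum
    refine Finset.sum_congr rfl fun w _ => ?_
    beta_reduce
    rw [ih (u ++ w) (fun w' => by simpa using h (w ++ w'))]

/-- The part of the word lying to the left of the cut is a constant factor. -/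
lemma E_tens_left (n : ℕ) (Φ Ψ : List α → K) (l : List κ) (u a : List α) (hu : n ≤ u.length) :
    E X (tens n Φ Ψ) l u a = Φ (u.take n) * E X Ψ l (u.drop n) a := by
  induction l generalizing u with
  | nil =>
    simp only [E_nil, tens]
    rw [List.take_append_of_le_length hu, List.drop_append_of_le_length hu]
  | cons i l ih =>
    simp_rw [E_cons]
    unfold Finsupp.sum
    rw [Finset.mul_sum]
    refine Finset.sum_congr rfl fun w _ => ?_
    beta_reduce
    rw [ih (u ++ w) (by rw [List.length_append]; omega), List.take_append_of_le_length hu,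
      List.drop_append_of_le_length hu]
    ring

/-- The part of the word lying to the right of the cut is a constant factor. -/
lemma E_tens_right {L n : ℕ} {φ Φ : List α → K} (hφ : Deg L φ) (hΦ : Deg n Φ) (l : List κ)
    (u a : List α) (ha : n ≤ a.length) :
    E X (tens L φ Φ) l u a
      = E X φ l u (a.take (a.length - n)) * Φ (a.drop (a.length - n)) := by
  have key : ∀ y : List α, tens L φ Φ (y ++ a)
      = φ (y ++ a.take (a.length - n)) * Φ (a.drop (a.length - n)) := by
    intro y
    by_cases h : y.length + (a.length - n) = L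
    · have h1 : y ++ a = (y ++ a.take (a.length - n)) ++ a.drop (a.length - n) := by
        rw [List.append_assoc, List.take_append_drop]
      rw [h1, tens_append]
      rw [List.length_append, List.length_take]
      omega
    · rw [hφ.tens hΦ, hφ (y ++ _), zero_mul]
      · rw [List.length_append, List.length_take]
        omega
      · rw [List.length_append]
        omega
  induction l generalizing u with
  | nil => simp only [E_nil, key]
  | cons i l ih =>
    simp_rw [E_cons]
    unfold Finsupp.sum
    rw [Finset.sum_mul]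
    refine Finset.sum_congr rfl fun w _ => ?_
    beta_reduce
    rw [ih (u ++ w)]
    ring

/-- A functional of small degree vanishes on long products. -/
lemma E_eq_zero_of_lt {n : ℕ} {Ψ : List α → K} (hΨ : Deg n Ψ) (hX : ∀ j, X j [] = 0)
    (l : List κ) (u a : List α) (h : n < u.length + l.length + a.length) :
    E X Ψ l u a = 0 := by
  induction l generalizing u with
  | nil =>
    rw [E_nil, hΨ]
    rw [List.length_append]
    simp at h
    omega
  | cons i l ih =>
    rw [E_cons]
    refine Finset.sum_eq_zero fun w hw => ?_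
    beta_reduce
    have hw1 : w ≠ [] := by
      rintro rfl
      exact (Finsupp.mem_support_iff.mp hw) (hX i)
    have hw2 : 0 < w.length := List.length_pos_iff.mpr hw1
    rw [ih (u ++ w) (by rw [List.length_append]; rw [List.length_cons] at h; omega), mul_zero]

/-- Cutting a run from the left. -/
lemma E_cut_left {Δ n : ℕ} {Φ Ψ : List α → K} (hΔ : ∀ j, ∀ w ∈ (X j).support, w.length ≤ Δ)
    (l : List κ) (u a : List α) (hu : u.length ≤ n)
    (h1 : ∀ l' : List κ, l'.length ≤ l.length → ∀ s : List α, s.length ≤ Δ → E X Ψ l' s a = 0)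
    (h2 : ∀ a' : List α, a'.length ≤ a.length → Ψ a' = 0) :
    E X (tens n Φ Ψ) l u a = 0 := by
  induction l generalizing u with
  | nil =>
    simp only [E_nil, tens]
    rw [h2, mul_zero]
    rw [List.length_drop, List.length_append]
    omega
  | cons i l ih =>
    rw [E_cons]
    refine Finset.sum_eq_zero fun w hw => ?_
    beta_reduce
    by_cases hc : (u ++ w).length ≤ n
    · rw [ih (u ++ w) hc (fun l' hl' => h1 l' (hl'.trans (by simp))), mul_zero]
    · push Not at hc
      rw [E_tens_left X n Φ Ψ l (u ++ w) a hc.le, h1 l (by simp), mul_zero, mul_zero]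
      have := hΔ i w hw
      rw [List.length_drop, List.length_append]
      omega

/-- Cutting a run from the right. -/
lemma E_cut_right {Δ L n : ℕ} {φ Φ : List α → K} (hφ : Deg L φ) (hΦ : Deg n Φ)
    (hΔ : ∀ j, ∀ w ∈ (X j).support, w.length ≤ Δ) (hL : Δ < L)
    (hk : ∀ (l : List κ) (s t : List α), s.length ≤ Δ → t.length ≤ Δ → E X φ l s t = 0)
    (l : List κ) (s a : List α) (hs : s.length ≤ Δ) (ha : a.length ≤ n) :
    E X (tens L φ Φ) l s a = 0 := by
  induction l using List.reverseRecOn generalizing a with
  | nil =>
    rw [E_nil, hφ.tens hΦ]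
    rw [List.length_append]
    omega
  | append_singleton l i ih =>
    rw [E_concat]
    refine Finset.sum_eq_zero fun w hw => ?_
    beta_reduce
    by_cases hc : (w ++ a).length ≤ n
    · rw [ih (w ++ a) hc, mul_zero]
    · push Not at hc
      rw [E_tens_right X hφ hΦ l s (w ++ a) hc.le, hk l s _ hs, zero_mul, mul_zero]
      have := hΔ i w hw
      rw [List.length_take, List.length_append]
      omega

/-- The main killing lemma: a run covering a cluster completely is killed. -/
lemma E_kill {Δ L n₁ n₂ : ℕ} {Φ₁ φ Φ₂ : List α → K} (hφ : Deg L φ)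
    (hΦ₂ : Deg n₂ Φ₂) (hΔ : ∀ j, ∀ w ∈ (X j).support, w.length ≤ Δ) (hL : Δ < L)
    (hk : ∀ (l : List κ) (s t : List α), s.length ≤ Δ → t.length ≤ Δ → E X φ l s t = 0)
    (l : List κ) (u a : List α) (hu : u.length ≤ n₁) (ha : a.length ≤ n₂) :
    E X (tens n₁ Φ₁ (tens L φ Φ₂)) l u a = 0 := by
  refine E_cut_left X hΔ l u a hu ?_ ?_
  · intro l' _ s hs
    exact E_cut_right X hφ hΦ₂ hΔ hL hk l' s a hs ha
  · intro a' ha'
    exact hφ.tens hΦ₂ a' (by omega)

end Runs

end Pool.Agent.Helper808_Bin
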